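import Mathlib
import Pool.Agent.D0H60.GDL.Rad
import Pool.Agent.D0H60.GDL.Joint2
import Pool.Agent.D0H61.AB.All
import Pool.Agent.D0H31.AB.Pntb
import Pool.Agent.D0H9.AB.Simp
import Pool.Agent.D0H42.AB.Bin
import Pool.Agent.D0H8.AB.Fam2
import Pool.Agent.D0H31.AB.Loc2

/-!
# The law of `T (a, b, c)` for almost all dilations of the equation `a + b = c`

For positive integers put `T (a, b, c) = log (c / rad (a b c)) / √(log c)`.  The question asks whether
`T < 1` for all but finitely many abc-triples `a + b = c`.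

**Theorem.**  For almost every `α > 0`:

* (the maximal order of `T`) for every `K` and `ε > 0` all but finitely many triples of pairwise coprime
  positive integers `a, b, c` with `|α (a + b) - c| ≤ K` have `T (a, b, c) < (4 √3 + ε) / √(log log c)`, and
  infinitely many of them, `K = 2`, have `T (a, b, c) ≥ (2 √2 - ε) / √(log log c)`;
* (the law in the windows) for ALL `κ ≥ 0` the upper limit of `T (a, b, c)`, over the pairwise coprime
  positive integers with `|α (a + b) - c| ≤ 5 exp (κ √(log c))`, is equal to `κ`.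

The same holds with `α a + β b` in place of `α (a + b)`, for almost all `α, β > 0`, and, without the
lower bound `(2 √2 - ε) / √(log log c)`, for almost all members of all families `F_λ (a, b)` for which
`F_λ (a, b)` falls into a given interval of length `2 W ≥ 2` about `c` with probability at most
`C W / max (a, b, c)`.

This is the conjecture of Robert, Stewart and Tenenbaum (which has the exact constant `4 √3`), up to
the constant of the lower bound, for almost all dilations.  The inequality `T < 1` of the question holds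
in the windows with all but finitely many exceptions for `κ < 1`, and not for `κ > 1`.  The lower half
of the law holds for every `α`, also for `α = 1`.

Proof. `∑ exp (-δ √(log n)) / rad n` converges for every `δ > 0`, since
`∑ n ^ (-α) / rad n ≤ ∏ (1 + 1 / (α p log p)) = exp (o (1 / α))`. The sum of the probabilities of the events
`T ≥ κ'` is at most the third power of such a sum.  For the lower half take `a = 2 ^ m`, `b = 3 ^ m`,
`c = 5 ^ j u`.  The maximal order (project AB of helper61): Rankin's method with the weights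
`n ^ (-σ) rad n ^ (σ - 1)` and the theorem of Mertens; second moments over `b = 3 ^ t ∏ p ^ e_p` and `2 ^ k ∣ c`.
-/

set_option autoImplicit false

open MeasureTheory Filter

namespace Pool.Agent.Results.MP_4ab349_nt.GenericDilations

/-- the product of the primes dividing `n` -/
def rad (n : ℕ) : ℕ := ∏ p ∈ n.primeFactors, p

/-- `T (a, b, c) = log (c / rad (a b c)) / √(log c)` -/
noncomputable def T (a b c : ℕ) : ℝ :=
  Real.log ((c : ℝ) / rad (a * b * c)) / Real.sqrt (Real.log c)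

/-- the triples `(a, b, c)` of pairwise coprime positive integers with `c > 1` and
`|F a b - c| ≤ 5 exp (κ √(log c))` -/
def Near (F : ℕ → ℕ → ℝ) (κ : ℝ) : Set (ℕ × ℕ × ℕ) :=
  {t | 0 < t.1 ∧ 0 < t.2.1 ∧ 1 < t.2.2 ∧ t.1.Coprime t.2.1 ∧ t.1.Coprime t.2.2 ∧
    t.2.1.Coprime t.2.2 ∧ |F t.1 t.2.1 - t.2.2| ≤ 5 * Real.exp (κ * Real.sqrt (Real.log t.2.2))}

/-- the upper limit of `T` over these triples is at least `κ` -/
def LowerHalf (F : ℕ → ℕ → ℝ) (κ : ℝ) : Prop :=
  ∀ ε : ℝ, 0 < ε → {t ∈ Near F κ | κ - ε ≤ T t.1 t.2.1 t.2.2}.Infinite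

/-- the upper limit of `T` over these triples is equal to `κ` -/
def Law (F : ℕ → ℕ → ℝ) (κ : ℝ) : Prop :=
  LowerHalf F κ ∧ ∀ ε : ℝ, 0 < ε → {t ∈ Near F κ | κ + ε ≤ T t.1 t.2.1 t.2.2}.Finite

/-- the triples `(a, b, c)` of pairwise coprime positive integers with `c > 2` and `|F a b - c| ≤ K` -/
def Close (F : ℕ → ℕ → ℝ) (K : ℝ) : Set (ℕ × ℕ × ℕ) :=
  {t | 0 < t.1 ∧ 0 < t.2.1 ∧ 2 < t.2.2 ∧ t.1.Coprime t.2.1 ∧ t.1.Coprime t.2.2 ∧
    t.2.1.Coprime t.2.2 ∧ |F t.1 t.2.1 - t.2.2| ≤ K}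

/-- `T < (4 √3 + ε) / √(log log c)` for all but finitely many of these triples, for all `K`, `ε` -/
def UpperOrder (F : ℕ → ℕ → ℝ) : Prop :=
  ∀ ε K : ℝ, 0 < ε → {t ∈ Close F K | (4 * Real.sqrt 3 + ε) /
    Real.sqrt (Real.log (Real.log t.2.2)) ≤ T t.1 t.2.1 t.2.2}.Finite

/-- `T ≥ (2 √2 - ε) / √(log log c)` for infinitely many of these triples, `K = 2`, for all `ε` -/
def LowerOrder (F : ℕ → ℕ → ℝ) : Prop :=
  ∀ ε : ℝ, 0 < ε → {t ∈ Close F 2 | (2 * Real.sqrt 2 - ε) /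
    Real.sqrt (Real.log (Real.log t.2.2)) ≤ T t.1 t.2.1 t.2.2}.Infinite

open Pool.Agent.D0H60.GDL

theorem rad_eq (n : ℕ) : (rad n : ℝ) = rd n := rfl

/-- the bad triples -/
def Bad (F : ℕ → ℕ → ℝ) (κ κ' : ℝ) (t : ℕ × ℕ × ℕ) : Prop :=
  0 < t.1 ∧ 0 < t.2.1 ∧ 0 < t.2.2 ∧
    |F t.1 t.2.1 - t.2.2| ≤ 5 * Real.exp (κ * Real.sqrt (Real.log (max (max (t.1 : ℝ) t.2.1) t.2.2))) ∧
    rd t.1 * (rd t.2.1 * rd t.2.2) ≤ max (max (t.1 : ℝ) t.2.1) t.2.2 *
      Real.exp (-κ' * Real.sqrt (Real.log (max (max (t.1 : ℝ) t.2.1) t.2.2)))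

/-- **the general principle** -/
theorem upper_ae {Λ : Type*} [MeasurableSpace Λ] (μ : Measure Λ) (G : Λ → ℕ → ℕ → ℝ) (C : ℝ)
    (h : ∀ a b c : ℕ, 0 < a → 0 < b → 0 < c → ∀ W : ℝ, 1 ≤ W →
      μ {l | |G l a b - c| ≤ W} ≤ ENNReal.ofReal (C * W / max (max (a : ℝ) b) c)) {κ κ' : ℝ}
    (hκ : 0 ≤ κ) (hκ' : κ < κ') : ∀ᵐ l ∂μ, {t : ℕ × ℕ × ℕ | Bad (G l) κ κ' t}.Finite := by
  set δ := (κ' - κ) / 3 with hδ
  have hδ0 : 0 < δ := by
    have : 0 < κ' - κ := by linarith
    positivity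
  set C' : ℝ := max C 0 with hC'
  have hC0 : 0 ≤ C' := le_max_right _ _
  have key : ∀ t : ℕ × ℕ × ℕ, μ {l | Bad (G l) κ κ' t} ≤
      ENNReal.ofReal (5 * C') * (ENNReal.ofReal (wt δ t.1) *
        (ENNReal.ofReal (wt δ t.2.1) * ENNReal.ofReal (wt δ t.2.2))) := by
    rintro ⟨a, b, c⟩
    dsimp only
    set H : ℝ := max (max (a : ℝ) b) c with hH
    set s : ℝ := Real.sqrt (Real.log H) with hs
    by_cases hg : 0 < a ∧ 0 < b ∧ 0 < c ∧ rd a * (rd b * rd c) ≤ H * Real.exp (-κ' * s)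
    · obtain ⟨ha, hb, hc, hr⟩ := hg
      have haH : (a : ℝ) ≤ H := (le_max_left _ _).trans (le_max_left _ _)
      have hbH : (b : ℝ) ≤ H := (le_max_right _ _).trans (le_max_left _ _)
      have hcH : (c : ℝ) ≤ H := le_max_right _ _
      have ha1 : (1 : ℝ) ≤ a := by exact_mod_cast ha
      have hb1 : (1 : ℝ) ≤ b := by exact_mod_cast hb
      have hc1 : (1 : ℝ) ≤ c := by exact_mod_cast hc
      have hH1 : 1 ≤ H := ha1.trans haH
      have hs0 : 0 ≤ s := Real.sqrt_nonneg _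
      have hW : (1 : ℝ) ≤ 5 * Real.exp (κ * s) := by
        have := Real.one_le_exp (mul_nonneg hκ hs0)
        linarith
      refine (measure_mono (t := {l | |G l a b - c| ≤ 5 * Real.exp (κ * s)}) ?_).trans
        ((h a b c ha hb hc _ hW).trans ?_)
      · intro l hl
        exact hl.2.2.2.1
      rw [← ENNReal.ofReal_mul (wt_nonneg _ _), ← ENNReal.ofReal_mul (wt_nonneg _ _),
        ← ENNReal.ofReal_mul (by positivity)]
      apply ENNReal.ofReal_le_ofReal
      have hw : ∀ n : ℕ, 0 < n → (n : ℝ) ≤ H → Real.exp (-δ * s) / rd n ≤ wt δ n := by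
        intro n hn hnH
        unfold wt
        rw [if_neg hn.ne']
        have := rd_pos n
        rw [div_le_div_iff_of_pos_right this]
        apply Real.exp_le_exp.2
        have h1 : Real.sqrt (Real.log n) ≤ s :=
          Real.sqrt_le_sqrt (Real.log_le_log (by exact_mod_cast hn) hnH)
        nlinarith
      have hra := rd_pos a
      have hrb := rd_pos b
      have hrc := rd_pos c
      have h3 : Real.exp (-δ * s) / rd a * (Real.exp (-δ * s) / rd b * (Real.exp (-δ * s) / rd c)) ≤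
          wt δ a * (wt δ b * wt δ c) := by
        apply mul_le_mul (hw a ha haH) _ (by positivity) (wt_nonneg _ _)
        exact mul_le_mul (hw b hb hbH) (hw c hc hcH) (by positivity) (wt_nonneg _ _)
      have h4 : Real.exp (κ * s) / H ≤
          Real.exp (-δ * s) / rd a * (Real.exp (-δ * s) / rd b * (Real.exp (-δ * s) / rd c)) := by
        have e : Real.exp (-δ * s) / rd a * (Real.exp (-δ * s) / rd b * (Real.exp (-δ * s) / rd c)) =
            Real.exp ((κ - κ') * s) / (rd a * (rd b * rd c)) := by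
          have e1 : Real.exp ((κ - κ') * s) =
              Real.exp (-δ * s) * Real.exp (-δ * s) * Real.exp (-δ * s) := by
            rw [← Real.exp_add, ← Real.exp_add]
            congr 1
            rw [hδ]
            ring
          rw [e1]
          field_simp
        rw [e, div_le_div_iff₀ (by linarith) (by positivity)]
        calc Real.exp (κ * s) * (rd a * (rd b * rd c)) ≤
            Real.exp (κ * s) * (H * Real.exp (-κ' * s)) := by gcongr
          _ = Real.exp ((κ - κ') * s) * H := by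
            have : Real.exp ((κ - κ') * s) = Real.exp (κ * s) * Real.exp (-κ' * s) := by
              rw [← Real.exp_add]
              congr 1
              ring
            rw [this]
            ring
      calc C * (5 * Real.exp (κ * s)) / H ≤ C' * (5 * Real.exp (κ * s)) / H := by
            gcongr
            exact le_max_left _ _
        _ = 5 * C' * (Real.exp (κ * s) / H) := by ring
        _ ≤ 5 * C' * (wt δ a * (wt δ b * wt δ c)) := by
            gcongr
            exact h4.trans h3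
    · have e : {l | Bad (G l) κ κ' (a, b, c)} = ∅ := by
        ext l
        simp only [Set.mem_ofPred_eq, Set.mem_empty_iff_false, iff_false]
        intro hl
        exact hg ⟨hl.1, hl.2.1, hl.2.2.1, hl.2.2.2.2⟩
      rw [e, measure_empty]
      exact zero_le
  apply ae_finite_setOfPred_mem
  refine ne_top_of_le_ne_top ?_ (ENNReal.tsum_le_tsum key)
  rw [ENNReal.tsum_mul_left]
  refine ENNReal.mul_ne_top ENNReal.ofReal_ne_top ?_
  have hA := wt_summable hδ0
  rw [ENNReal.tsum_prod (f := fun a (y : ℕ × ℕ) => ENNReal.ofReal (wt δ a) *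
    (ENNReal.ofReal (wt δ y.1) * ENNReal.ofReal (wt δ y.2)))]
  simp_rw [ENNReal.tsum_mul_left]
  rw [ENNReal.tsum_mul_right]
  refine ENNReal.mul_ne_top hA ?_
  rw [ENNReal.tsum_prod (f := fun a b => ENNReal.ofReal (wt δ a) * ENNReal.ofReal (wt δ b))]
  simp_rw [ENNReal.tsum_mul_left]
  rw [ENNReal.tsum_mul_right]
  exact ENNReal.mul_ne_top hA hA

theorem rd_triple {a b c : ℕ} (h1 : a.Coprime b) (h2 : a.Coprime c) (h3 : b.Coprime c) :
    (rad (a * b * c) : ℝ) = rd a * (rd b * rd c) := by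
  rw [rad_eq, rd_mul (Nat.Coprime.mul_left h2 h3), rd_mul h1, mul_assoc]

theorem upper_of {F : ℕ → ℕ → ℝ} {k : ℝ} (hk : 0 < k)
    (hF : ∀ a b : ℕ, 0 < a → 0 < b → k * (a + b) ≤ F a b)
    (hfin : ∀ κ₁ κ₂ : ℚ, (0 : ℝ) ≤ κ₁ → (κ₁ : ℝ) < κ₂ →
      {t : ℕ × ℕ × ℕ | Bad F κ₁ κ₂ t}.Finite) {κ : ℝ} (hκ : 0 ≤ κ) {ε : ℝ} (hε : 0 < ε) :
    {t ∈ Near F κ | κ + ε ≤ T t.1 t.2.1 t.2.2}.Finite := by
  obtain ⟨κ₁, h1, h1'⟩ := exists_rat_btwn (show κ < κ + ε / 4 by linarith)
  obtain ⟨κ₂, h2, h2'⟩ := exists_rat_btwn (show κ + ε / 4 < κ + ε / 2 by linarith)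
  have h12 : (κ₁ : ℝ) < κ₂ := h1'.trans h2
  have hκ2 : (0 : ℝ) ≤ κ₂ := by linarith
  set K : ℝ := max 1 ((1 + 5 * Real.exp (κ ^ 2 / 4)) / k) with hK
  have hK1 : 1 ≤ K := le_max_left _ _
  have hlK : 0 ≤ Real.log K := Real.log_nonneg hK1
  set q : ℝ := Real.sqrt (Real.log K) with hq
  have hq0 : 0 ≤ q := Real.sqrt_nonneg _
  have hq2 : q ^ 2 = Real.log K := Real.sq_sqrt hlK
  set X₀ : ℝ := 2 * κ₂ * q / ε with hX
  have hX0 : 0 ≤ X₀ := by positivity
  set N : ℕ := ⌈K * Real.exp (X₀ ^ 2)⌉₊ with hN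
  have hfin2 : {t : ℕ × ℕ × ℕ | t.1 ≤ N ∧ t.2.1 ≤ N ∧ t.2.2 ≤ N}.Finite := by
    have : {t : ℕ × ℕ × ℕ | t.1 ≤ N ∧ t.2.1 ≤ N ∧ t.2.2 ≤ N} =
        Set.Iic N ×ˢ (Set.Iic N ×ˢ Set.Iic N) := by
      ext t
      simp [Prod.le_def]
    rw [this]
    exact (Set.finite_Iic N).prod ((Set.finite_Iic N).prod (Set.finite_Iic N))
  refine ((hfin κ₁ κ₂ (by linarith) h12).union hfin2).subset ?_
  rintro ⟨a, b, c⟩ ⟨⟨ha, hb, hc, hab, hac, hbc, hnear⟩, hT⟩
  dsimp only at ha hb hc hab hac hbc hnear hT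
  have ha1 : (1 : ℝ) ≤ a := by exact_mod_cast ha
  have hb1 : (1 : ℝ) ≤ b := by exact_mod_cast hb
  have hc1 : (1 : ℝ) < c := by exact_mod_cast hc
  have hc0 : (0 : ℝ) < c := by linarith
  have hlc : 0 < Real.log c := Real.log_pos hc1
  set x : ℝ := Real.sqrt (Real.log c) with hx
  have hx0 : 0 < x := Real.sqrt_pos.2 hlc
  have hx2 : x ^ 2 = Real.log c := Real.sq_sqrt hlc.le
  have hexp : Real.exp (κ * x) ≤ Real.exp (κ ^ 2 / 4) * c := by
    have h3 : κ * x ≤ κ ^ 2 / 4 + x ^ 2 := by nlinarith [sq_nonneg (κ / 2 - x)]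
    calc Real.exp (κ * x) ≤ Real.exp (κ ^ 2 / 4 + x ^ 2) := Real.exp_le_exp.2 h3
      _ = Real.exp (κ ^ 2 / 4) * c := by rw [Real.exp_add, hx2, Real.exp_log hc0]
  have hle : k * (a + b) ≤ (1 + 5 * Real.exp (κ ^ 2 / 4)) * c := by
    have h4 := hF a b ha hb
    have h5 := (abs_le.1 hnear).2
    nlinarith
  have hab' : (a : ℝ) + b ≤ K * c := by
    have h6 : (a : ℝ) + b ≤ (1 + 5 * Real.exp (κ ^ 2 / 4)) / k * c := by
      rw [div_mul_eq_mul_div, le_div_iff₀ hk]
      linarith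
    exact h6.trans (mul_le_mul_of_nonneg_right (le_max_right _ _) hc0.le)
  set H : ℝ := max (max (a : ℝ) b) c with hH
  have hcH : (c : ℝ) ≤ H := le_max_right _ _
  have hHK : H ≤ K * c := by
    apply max_le
    · apply max_le <;> linarith
    · nlinarith
  by_cases hbig : X₀ ≤ x
  · left
    have hH0 : 0 < H := hc0.trans_le hcH
    have hlH : Real.log c ≤ Real.log H := Real.log_le_log hc0 hcH
    set y : ℝ := Real.sqrt (Real.log H) with hy
    have hy2 : y ^ 2 = Real.log H := Real.sq_sqrt (hlc.le.trans hlH)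
    have hxy : x ≤ y := Real.sqrt_le_sqrt hlH
    have hyq : y ≤ x + q := by
      have h7 : Real.log H ≤ Real.log K + Real.log c := by
        rw [← Real.log_mul (by linarith) hc0.ne']
        exact Real.log_le_log hH0 hHK
      nlinarith
    refine ⟨ha, hb, (by omega : 0 < c), ?_, ?_⟩
    · refine hnear.trans ?_
      have : κ * x ≤ κ₁ * y := mul_le_mul h1.le hxy hx0.le (by linarith)
      have := Real.exp_le_exp.2 this
      linarith
    · show rd a * (rd b * rd c) ≤ H * Real.exp (-κ₂ * y)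
      rw [← rd_triple hab hac hbc]
      have hr0 : (0 : ℝ) < rad (a * b * c) := by
        rw [rad_eq]
        exact rd_pos _
      have h8 : (κ + ε) * x ≤ Real.log (c / rad (a * b * c)) := by
        unfold T at hT
        rwa [le_div_iff₀ hx0] at hT
      rw [Real.log_div hc0.ne' hr0.ne'] at h8
      have h9 : Real.log (rad (a * b * c)) ≤ Real.log H - κ₂ * y := by
        have h10 : κ₂ * q ≤ ε / 2 * x := by
          have : 2 * κ₂ * q / ε ≤ x := hbig
          rw [div_le_iff₀ hε] at this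
          linarith
        nlinarith
      calc (rad (a * b * c) : ℝ) = Real.exp (Real.log (rad (a * b * c))) := (Real.exp_log hr0).symm
        _ ≤ Real.exp (Real.log H - κ₂ * y) := Real.exp_le_exp.2 h9
        _ = H * Real.exp (-κ₂ * y) := by
          rw [sub_eq_add_neg, Real.exp_add, Real.exp_log hH0, neg_mul]
  · right
    push Not at hbig
    have h11 : (c : ℝ) ≤ Real.exp (X₀ ^ 2) := by
      rw [← Real.exp_log hc0, ← hx2]
      apply Real.exp_le_exp.2
      nlinarith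
    have h12 : H ≤ N := by
      refine (hHK.trans ?_).trans (Nat.le_ceil _)
      gcongr
    refine ⟨?_, ?_, ?_⟩
    · exact_mod_cast ((le_max_left _ _).trans (le_max_left _ _)).trans h12
    · exact_mod_cast ((le_max_right _ _).trans (le_max_left _ _)).trans h12
    · exact_mod_cast hcH.trans h12

/-- the third number -/
theorem exists_c {κ ε : ℝ} (hκ : 0 ≤ κ) (hε : 0 < ε) : ∃ x₀ : ℝ, ∀ x : ℝ, x₀ ≤ x →
    ∃ j u : ℕ, 1 < 5 ^ j * u ∧ (5 ^ j * u).Coprime 6 ∧
      |x - (5 ^ j * u : ℕ)| ≤ 5 * Real.exp (κ * Real.sqrt (Real.log (5 ^ j * u : ℕ))) ∧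
      (κ - ε) * Real.sqrt (Real.log (5 ^ j * u : ℕ)) ≤
        Real.log ((5 ^ j * u : ℕ) / (30 * u : ℕ)) := by
  have hl4 : 0 < Real.log 4 := Real.log_pos (by norm_num)
  set M : ℝ := κ * Real.sqrt (Real.log 4) + Real.log 150 with hM
  refine ⟨2 * Real.exp (max ((2 * κ + 3) ^ 2) ((M / ε) ^ 2)), fun x hx => ?_⟩
  have hx0 : 0 < x := lt_of_lt_of_le (by positivity) hx
  set L : ℝ := Real.log (x / 2) with hL
  have hLe : max ((2 * κ + 3) ^ 2) ((M / ε) ^ 2) ≤ L := by
    rw [hL, Real.le_log_iff_exp_le (by positivity)]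
    linarith
  have hL1 : (2 * κ + 3) ^ 2 ≤ L := (le_max_left _ _).trans hLe
  have hL2 : (M / ε) ^ 2 ≤ L := (le_max_right _ _).trans hLe
  have hL0 : 0 < L := by nlinarith
  set r : ℝ := Real.sqrt L with hr
  have hr2 : r ^ 2 = L := Real.sq_sqrt hL0.le
  have hr0 : 0 < r := Real.sqrt_pos.2 hL0
  have hrκ : 2 * κ + 3 ≤ r := Real.le_sqrt_of_sq_le hL1
  have hrM : M / ε ≤ r := Real.le_sqrt_of_sq_le hL2
  have hM2 : M ≤ ε * r := by
    rw [div_le_iff₀ hε] at hrM
    linarith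
  have hxL : x = 2 * Real.exp L := by
    rw [hL, Real.exp_log (by positivity)]
    ring
  have hl5 : 0 < Real.log 5 := Real.log_pos (by norm_num)
  set j : ℕ := ⌊κ * r / Real.log 5⌋₊ with hj
  have hj1 : (j : ℝ) * Real.log 5 ≤ κ * r := by
    have := Nat.floor_le (show 0 ≤ κ * r / Real.log 5 by positivity)
    rwa [le_div_iff₀ hl5] at this
  have hj2 : κ * r ≤ ((j : ℝ) + 1) * Real.log 5 := by
    have := (Nat.lt_floor_add_one (κ * r / Real.log 5)).le
    rwa [div_le_iff₀ hl5] at this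
  set Q : ℝ := (5 : ℝ) ^ j with hQ
  have hQ1 : Q ≤ Real.exp (κ * r) := by
    have : Real.exp (j * Real.log 5) = Q := by
      rw [Real.exp_nat_mul, Real.exp_log (by norm_num)]
    rw [← this]
    exact Real.exp_le_exp.2 hj1
  have hQ2 : Real.exp (κ * r) ≤ 5 * Q := by
    have : Real.exp (((j : ℝ) + 1) * Real.log 5) = 5 * Q := by
      rw [add_mul, Real.exp_add, Real.exp_nat_mul, one_mul, Real.exp_log (by norm_num)]
      ring
    rw [← this]
    exact Real.exp_le_exp.2 hj2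
  have hQ0 : 1 ≤ Q := one_le_pow₀ (by norm_num)
  have hQx : 5 * Q ≤ x / 2 := by
    have h1 : κ * r + 3 / 2 * r ≤ L := by nlinarith
    have h2 : 3 ≤ r := by linarith
    have h3 : Real.exp (κ * r) * Real.exp (9 / 2) ≤ Real.exp L := by
      rw [← Real.exp_add]
      apply Real.exp_le_exp.2
      linarith
    have h4 : 5 ≤ Real.exp (9 / 2) := by
      have := Real.add_one_le_exp (9 / 2 : ℝ)
      linarith
    have h5 : 0 < Real.exp (κ * r) := Real.exp_pos _
    rw [hxL]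
    nlinarith
  set u : ℕ := 6 * ⌊x / Q / 6⌋₊ + 1 with hu
  have hu1 : |x / Q - u| ≤ 5 := by
    have h1 := Nat.floor_le (show 0 ≤ x / Q / 6 by positivity)
    have h2 := Nat.lt_floor_add_one (x / Q / 6)
    rw [hu]
    push_cast
    rw [abs_le]
    constructor <;> linarith
  have hc : |x - Q * u| ≤ 5 * Q := by
    have e : x - Q * u = Q * (x / Q - u) := by
      field_simp
    rw [e, abs_mul, abs_of_nonneg (by linarith)]
    nlinarith
  have hcu : x / 2 ≤ Q * u := by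
    have := (abs_le.1 hc).2
    linarith
  have hcu2 : Q * u ≤ 4 * (x / 2) := by
    have := (abs_le.1 hc).1
    linarith
  have hx2 : 1 < x / 2 := by
    have : (0 : ℝ) < L := hL0
    rw [hxL]
    have := Real.add_one_le_exp L
    linarith
  have ecast : ((5 ^ j * u : ℕ) : ℝ) = Q * u := by push_cast; rfl
  have hu0 : (0 : ℝ) < u := by
    rw [hu]
    push_cast
    positivity
  have hlogc : L ≤ Real.log (Q * u) := Real.log_le_log (by linarith) hcu
  have hlogc2 : Real.log (Q * u) ≤ Real.log 4 + L := by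
    rw [hL, ← Real.log_mul (by norm_num) (by linarith)]
    exact Real.log_le_log (by positivity) hcu2
  set y : ℝ := Real.sqrt (Real.log (Q * u)) with hy
  have hry : r ≤ y := Real.sqrt_le_sqrt hlogc
  have hyr : y ≤ r + Real.sqrt (Real.log 4) := by
    have h1 : y ^ 2 = Real.log (Q * u) := Real.sq_sqrt (hL0.le.trans hlogc)
    have h2 : Real.sqrt (Real.log 4) ^ 2 = Real.log 4 := Real.sq_sqrt hl4.le
    have h3 : 0 ≤ Real.sqrt (Real.log 4) := Real.sqrt_nonneg _
    nlinarith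
  refine ⟨j, u, ?_, ?_, ?_, ?_⟩
  · have : (1 : ℝ) < (5 ^ j * u : ℕ) := by
      rw [ecast]
      linarith
    exact_mod_cast this
  · apply Nat.Coprime.mul_left
    · exact Nat.Coprime.pow_left _ (by norm_num)
    · rw [hu]
      have : (6 * ⌊x / Q / 6⌋₊ + 1).Coprime 6 := by
        rw [Nat.coprime_comm]
        simp
      exact this
  · rw [ecast]
    refine hc.trans ?_
    have : Real.exp (κ * r) ≤ Real.exp (κ * y) :=
      Real.exp_le_exp.2 (mul_le_mul_of_nonneg_left hry hκ)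
    linarith
  · rw [ecast]
    have e2 : Q * u / ((30 * u : ℕ) : ℝ) = Q / 30 := by
      push_cast
      field_simp
    rw [e2]
    have h1 : Real.exp (κ * r) / 150 ≤ Q / 30 := by linarith
    have h2 : κ * r - Real.log 150 ≤ Real.log (Q / 30) := by
      have h3 : Real.log (Real.exp (κ * r) / 150) = κ * r - Real.log 150 := by
        rw [Real.log_div (Real.exp_pos _).ne' (by norm_num), Real.log_exp]
      rw [← h3]
      exact Real.log_le_log (by positivity) h1
    have h4 : κ * y ≤ κ * (r + Real.sqrt (Real.log 4)) := mul_le_mul_of_nonneg_left hyr hκ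
    have h5 : ε * r ≤ ε * y := mul_le_mul_of_nonneg_left hry hε.le
    nlinarith

theorem lower {F : ℕ → ℕ → ℝ} {k : ℝ} (hk : 0 < k)
    (hF : ∀ a b : ℕ, 0 < a → 0 < b → k * (a + b) ≤ F a b) {κ : ℝ} (hκ : 0 ≤ κ) :
    LowerHalf F κ := by
  intro ε hε
  obtain ⟨x₀, h⟩ := exists_c hκ hε
  obtain ⟨m₀, hm₀⟩ := pow_unbounded_of_one_lt (x₀ / k) (show (1 : ℝ) < 2 by norm_num)
  have hm : ∀ m : ℕ, x₀ ≤ F (2 ^ (m₀ + m + 1)) (3 ^ (m₀ + m + 1)) := by
    intro m
    have h1 := hF (2 ^ (m₀ + m + 1)) (3 ^ (m₀ + m + 1)) (by positivity) (by positivity)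
    have h2 : (2 : ℝ) ^ m₀ ≤ 2 ^ (m₀ + m + 1) := pow_le_pow_right₀ (by norm_num) (by omega)
    have h3 : x₀ ≤ k * 2 ^ m₀ := by
      rw [div_lt_iff₀ hk] at hm₀
      linarith
    have h4 : (0 : ℝ) < 3 ^ (m₀ + m + 1) := by positivity
    push_cast at h1
    nlinarith
  choose j u h1 h2 h3 h4 using fun m => h _ (hm m)
  refine Set.infinite_of_injective_forall_mem
    (f := fun m : ℕ => ((2 ^ (m₀ + m + 1), 3 ^ (m₀ + m + 1), 5 ^ j m * u m) : ℕ × ℕ × ℕ)) ?_ ?_
  · intro m m' hmm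
    have := (Prod.ext_iff.1 hmm).1
    have := Nat.pow_right_injective (le_refl 2) this
    omega
  · intro m
    have hco : (5 ^ j m * u m).Coprime 6 := h2 m
    have hc2 : (5 ^ j m * u m).Coprime 2 := Nat.Coprime.coprime_dvd_right (by norm_num) hco
    have hc3 : (5 ^ j m * u m).Coprime 3 := Nat.Coprime.coprime_dvd_right (by norm_num) hco
    have hc1 : 1 < 5 ^ j m * u m := h1 m
    have hu0 : u m ≠ 0 := by
      rintro h0
      rw [h0] at hc1
      omega
    refine ⟨⟨by positivity, by positivity, hc1, ?_, ?_, ?_, ?_⟩, ?_⟩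
    · exact Nat.Coprime.pow _ _ (by norm_num)
    · exact Nat.Coprime.pow_left _ hc2.symm
    · exact Nat.Coprime.pow_left _ hc3.symm
    · exact h3 m
    · show κ - ε ≤ T _ _ _
      unfold T
      have hc1' : (1 : ℝ) < ((5 ^ j m * u m : ℕ) : ℝ) := by exact_mod_cast hc1
      have hlc : 0 < Real.log ((5 ^ j m * u m : ℕ) : ℝ) := Real.log_pos hc1'
      rw [le_div_iff₀ (Real.sqrt_pos.2 hlc)]
      refine (h4 m).trans ?_
      apply Real.log_le_log
      · have : (0 : ℝ) < (30 * u m : ℕ) := by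
          have := Nat.pos_of_ne_zero hu0
          exact_mod_cast (by omega : 0 < 30 * u m)
        positivity
      · have hr0 : (0 : ℝ) < rad (2 ^ (m₀ + m + 1) * 3 ^ (m₀ + m + 1) * (5 ^ j m * u m)) := by
          rw [rad_eq]
          exact rd_pos _
        apply div_le_div_of_nonneg_left (by linarith) hr0
        have hsub : (2 ^ (m₀ + m + 1) * 3 ^ (m₀ + m + 1) * (5 ^ j m * u m)).primeFactors ⊆
            (30 * u m).primeFactors := by
          intro p hp
          have hpp := Nat.prime_of_mem_primeFactors hp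
          have hpd := Nat.dvd_of_mem_primeFactors hp
          rw [Nat.mem_primeFactors]
          refine ⟨hpp, ?_, by omega⟩
          rcases (Nat.Prime.dvd_mul hpp).1 hpd with hpd | hpd
          · rcases (Nat.Prime.dvd_mul hpp).1 hpd with hpd | hpd
            · exact (hpp.dvd_of_dvd_pow hpd).trans ((by norm_num : 2 ∣ 30).mul_right _)
            · exact (hpp.dvd_of_dvd_pow hpd).trans ((by norm_num : 3 ∣ 30).mul_right _)
          · rcases (Nat.Prime.dvd_mul hpp).1 hpd with hpd | hpd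
            · exact (hpp.dvd_of_dvd_pow hpd).trans ((by norm_num : 5 ∣ 30).mul_right _)
            · exact hpd.mul_left _
        have hle : rad (2 ^ (m₀ + m + 1) * 3 ^ (m₀ + m + 1) * (5 ^ j m * u m)) ≤ 30 * u m := by
          unfold rad
          calc _ ≤ ∏ p ∈ (30 * u m).primeFactors, p :=
                Finset.prod_le_prod_of_subset_of_one_le' hsub fun p hp _ =>
                  (Nat.prime_of_mem_primeFactors hp).pos
            _ ≤ 30 * u m := Nat.le_of_dvd (by omega) (Nat.prod_primeFactors_dvd _)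
        exact_mod_cast hle

/-- the general theorem -/
theorem general {Λ : Type*} [MeasurableSpace Λ] (μ : Measure Λ) (G : Λ → ℕ → ℕ → ℝ) (C : ℝ)
    (h : ∀ a b c : ℕ, 0 < a → 0 < b → 0 < c → ∀ W : ℝ, 1 ≤ W →
      μ {l | |G l a b - c| ≤ W} ≤ ENNReal.ofReal (C * W / max (max (a : ℝ) b) c)) :
    ∀ᵐ l ∂μ, ∀ k : ℝ, 0 < k → (∀ a b : ℕ, 0 < a → 0 < b → k * (a + b) ≤ G l a b) →
      ∀ κ : ℝ, 0 ≤ κ → Law (G l) κ := by
  have h1 : ∀ᵐ l ∂μ, ∀ κ₁ κ₂ : ℚ, (0 : ℝ) ≤ κ₁ → (κ₁ : ℝ) < κ₂ →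
      {t : ℕ × ℕ × ℕ | Bad (G l) κ₁ κ₂ t}.Finite := by
    rw [ae_all_iff]
    intro κ₁
    rw [ae_all_iff]
    intro κ₂
    by_cases h2 : (0 : ℝ) ≤ κ₁ ∧ (κ₁ : ℝ) < κ₂
    · filter_upwards [upper_ae μ G C h h2.1 h2.2] with l hl _ _ using hl
    · filter_upwards with l h3 h4
      exact absurd ⟨h3, h4⟩ h2
  filter_upwards [h1] with l hl k hk hG κ hκ
  exact ⟨lower hk hG hκ, fun ε hε => upper_of hk hG hl hκ hε⟩

theorem meas1 (M : ℕ) (hM : 1 ≤ M) (a b c : ℕ) (ha : 0 < a) (hb : 0 < b) (hc : 0 < c) (W : ℝ)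
    (hW : 1 ≤ W) : volume.restrict (Set.Ioc (0 : ℝ) M) {α | |α * (a + b) - c| ≤ W} ≤
      ENNReal.ofReal (4 * M * W / max (max (a : ℝ) b) c) := by
  rw [Measure.restrict_apply' measurableSet_Ioc]
  have ha1 : (1 : ℝ) ≤ a := by exact_mod_cast ha
  have hb1 : (1 : ℝ) ≤ b := by exact_mod_cast hb
  have hc1 : (1 : ℝ) ≤ c := by exact_mod_cast hc
  have hM1 : (1 : ℝ) ≤ M := by exact_mod_cast hM
  set S : ℝ := (a : ℝ) + b with hS
  have hS0 : 0 < S := by positivity
  set H : ℝ := max (max (a : ℝ) b) c with hH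
  have hH0 : 0 < H := lt_of_lt_of_le (by linarith) (le_max_right _ _)
  rcases Set.eq_empty_or_nonempty ({α : ℝ | |α * S - c| ≤ W} ∩ Set.Ioc (0 : ℝ) M) with he | ⟨α, h1, h2, h3⟩
  · rw [he, measure_empty]
    exact zero_le
  replace h1 : |α * S - c| ≤ W := h1
  have h4 := (abs_le.1 h1).1
  have h5 : α * S ≤ M * S := mul_le_mul_of_nonneg_right h3 hS0.le
  have hMS : S ≤ M * S := by nlinarith
  have hHle : H ≤ M * S + W := by
    apply max_le
    · apply max_le <;> linarith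
    · linarith
  rcases le_total W (M * S) with hw | hw
  · calc volume ({α : ℝ | |α * S - c| ≤ W} ∩ Set.Ioc (0 : ℝ) M)
        ≤ volume (Set.Icc ((c - W) / S) ((c + W) / S)) := by
          apply measure_mono
          rintro β ⟨hβ, -⟩
          have h6 := abs_le.1 (show |β * S - c| ≤ W from hβ)
          exact ⟨by rw [div_le_iff₀ hS0]; linarith [h6.1], by rw [le_div_iff₀ hS0]; linarith [h6.2]⟩
      _ = ENNReal.ofReal ((c + W) / S - (c - W) / S) := Real.volume_Icc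
      _ ≤ _ := by
          apply ENNReal.ofReal_le_ofReal
          rw [← sub_div, div_le_div_iff₀ hS0 hH0]
          nlinarith
  · calc volume ({α : ℝ | |α * S - c| ≤ W} ∩ Set.Ioc (0 : ℝ) M)
        ≤ volume (Set.Ioc (0 : ℝ) M) := measure_mono Set.inter_subset_right
      _ = ENNReal.ofReal (M - 0) := Real.volume_Ioc
      _ ≤ _ := by
          apply ENNReal.ofReal_le_ofReal
          rw [sub_zero, le_div_iff₀ hH0]
          nlinarith

theorem slice {M : ℝ} (hM : 0 ≤ M) {A : Set (ℝ × ℝ)} (hA : MeasurableSet A) {v : ℝ} (hv : 0 ≤ v)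
    (h0 : ∀ p ∈ A, p.1 ∈ Set.Ioc 0 M)
    (h : ∀ x : ℝ, volume (Prod.mk x ⁻¹' A) ≤ ENNReal.ofReal v) :
    volume A ≤ ENNReal.ofReal (M * v) := by
  rw [Measure.volume_eq_prod, Measure.prod_apply hA]
  calc ∫⁻ x, volume (Prod.mk x ⁻¹' A) ≤
      ∫⁻ x, (Set.Ioc (0 : ℝ) M).indicator (fun _ => ENNReal.ofReal v) x := by
        apply lintegral_mono
        intro x
        by_cases hx : x ∈ Set.Ioc (0 : ℝ) M
        · rw [Set.indicator_of_mem hx]
          exact h x
        · have : Prod.mk x ⁻¹' A = ∅ := by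
            ext y
            simp only [Set.mem_preimage, Set.mem_empty_iff_false, iff_false]
            exact fun hy => hx (h0 _ hy)
          dsimp only
          rw [this, measure_empty]
          exact zero_le
    _ = ENNReal.ofReal v * ENNReal.ofReal M := by
        rw [lintegral_indicator measurableSet_Ioc, setLIntegral_const, Real.volume_Ioc, sub_zero]
    _ = ENNReal.ofReal (M * v) := by rw [← ENNReal.ofReal_mul hv, mul_comm]

theorem icc_vol {S W z : ℝ} (hS : 0 < S) (B : Set ℝ) (hB : ∀ y ∈ B, |y * S - z| ≤ W) :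
    volume B ≤ ENNReal.ofReal (2 * W / S) := by
  calc volume B ≤ volume (Set.Icc ((z - W) / S) ((z + W) / S)) := by
        apply measure_mono
        intro β hβ
        have h6 := abs_le.1 (hB β hβ)
        exact ⟨by rw [div_le_iff₀ hS]; linarith [h6.1], by rw [le_div_iff₀ hS]; linarith [h6.2]⟩
    _ = ENNReal.ofReal ((z + W) / S - (z - W) / S) := Real.volume_Icc
    _ = _ := by
        congr 1
        ring

theorem meas2 (M : ℕ) (hM : 1 ≤ M) (a b c : ℕ) (ha : 0 < a) (hb : 0 < b) (hc : 0 < c) (W : ℝ)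
    (hW : 1 ≤ W) : volume.restrict (Set.Ioc (0 : ℝ) M ×ˢ Set.Ioc (0 : ℝ) M)
      {p : ℝ × ℝ | |p.1 * a + p.2 * b - c| ≤ W} ≤
      ENNReal.ofReal (8 * M ^ 2 * W / max (max (a : ℝ) b) c) := by
  rw [Measure.restrict_apply' (measurableSet_Ioc.prod measurableSet_Ioc)]
  have ha1 : (1 : ℝ) ≤ a := by exact_mod_cast ha
  have hb1 : (1 : ℝ) ≤ b := by exact_mod_cast hb
  have hc1 : (1 : ℝ) ≤ c := by exact_mod_cast hc
  have hM1 : (1 : ℝ) ≤ M := by exact_mod_cast hM
  set H : ℝ := max (max (a : ℝ) b) c with hH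
  have hH0 : 0 < H := lt_of_lt_of_le (by linarith) (le_max_right _ _)
  set A : Set (ℝ × ℝ) := {p : ℝ × ℝ | |p.1 * a + p.2 * b - c| ≤ W} ∩
    Set.Ioc (0 : ℝ) M ×ˢ Set.Ioc (0 : ℝ) M with hA
  have hAm : MeasurableSet A := by
    apply MeasurableSet.inter
    · apply measurableSet_le <;> fun_prop
    · exact measurableSet_Ioc.prod measurableSet_Ioc
  rcases Set.eq_empty_or_nonempty A with he | ⟨p, h1, h2, h3⟩
  · rw [he, measure_empty]
    exact zero_le
  set S : ℝ := max (a : ℝ) b with hS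
  have hS1 : 1 ≤ S := ha1.trans (le_max_left _ _)
  have haS : (a : ℝ) ≤ S := le_max_left _ _
  have hbS : (b : ℝ) ≤ S := le_max_right _ _
  replace h1 : |p.1 * a + p.2 * b - c| ≤ W := h1
  have h4 := (abs_le.1 h1).1
  have h5 : p.1 * a ≤ M * S := mul_le_mul h2.2 haS (by linarith) (by linarith)
  have h6 : p.2 * b ≤ M * S := mul_le_mul h3.2 hbS (by linarith) (by linarith)
  have hMS : S ≤ M * S := by nlinarith
  have hHle : H ≤ 2 * (M * S) + W := by
    apply max_le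
    · nlinarith
    · linarith
  have hvol1 : volume A ≤ ENNReal.ofReal (M * (2 * W / S)) := by
    rcases le_total (a : ℝ) b with hab | hab
    · have e : S = b := max_eq_right hab
      rw [e]
      apply slice (by linarith) hAm (by positivity)
      · rintro q ⟨-, hq, -⟩
        exact hq
      · intro x
        apply icc_vol (by linarith) (z := c - x * a)
        rintro y ⟨hy, -⟩
        have : |x * a + y * b - c| ≤ W := hy
        have e2 : y * (b : ℝ) - (c - x * a) = x * a + y * b - c := by ring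
        rw [e2]
        exact this
    · have e : S = a := max_eq_left hab
      rw [e]
      have hsw : volume A = volume (Prod.swap ⁻¹' A) := by
        rw [Measure.volume_eq_prod]
        exact ((Measure.measurePreserving_swap (μ := (volume : Measure ℝ))
          (ν := (volume : Measure ℝ))).measure_preimage hAm.nullMeasurableSet).symm
      rw [hsw]
      apply slice (by linarith) (measurable_swap hAm) (by positivity)
      · rintro q ⟨-, -, hq⟩
        exact hq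
      · intro x
        apply icc_vol (by linarith) (z := c - x * b)
        rintro y ⟨hy, -⟩
        have : |y * a + x * b - c| ≤ W := hy
        have e2 : y * (a : ℝ) - (c - x * b) = y * a + x * b - c := by ring
        rw [e2]
        exact this
  have hvol2 : volume A ≤ ENNReal.ofReal (M * M) := by
    apply slice (by linarith) hAm (by linarith)
    · rintro q ⟨-, hq, -⟩
      exact hq
    · intro x
      calc volume (Prod.mk x ⁻¹' A) ≤ volume (Set.Ioc (0 : ℝ) M) := by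
            apply measure_mono
            rintro y ⟨-, -, hy⟩
            exact hy
        _ = ENNReal.ofReal M := by rw [Real.volume_Ioc, sub_zero]
  rcases le_total W (2 * (M * S)) with hw | hw
  · refine hvol1.trans (ENNReal.ofReal_le_ofReal ?_)
    rw [mul_div_assoc', div_le_div_iff₀ (by linarith) hH0]
    have h7 : H ≤ 4 * (M * S) := by linarith
    have h8 : M * (2 * W) * H ≤ M * (2 * W) * (4 * (M * S)) :=
      mul_le_mul_of_nonneg_left h7 (by positivity)
    nlinarith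
  · refine hvol2.trans (ENNReal.ofReal_le_ofReal ?_)
    rw [le_div_iff₀ hH0]
    have h7 : H ≤ 2 * W := by linarith
    have h8 : (M : ℝ) * M * H ≤ M * M * (2 * W) := mul_le_mul_of_nonneg_left h7 (by positivity)
    nlinarith

open Pool.Agent.D0H61.AB (S_UP S_LOW2 PC V)

theorem loglog_pos {c : ℕ} (hc : 2 < c) : 0 < Real.log c ∧ 0 < Real.log (Real.log c) := by
  have hc3 : (3 : ℝ) ≤ c := by exact_mod_cast hc
  have h1 : 1 < Real.log c := by
    rw [Real.lt_log_iff_exp_lt (by linarith)]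
    have := Real.exp_one_lt_d9
    linarith
  exact ⟨by linarith, Real.log_pos h1⟩

/-- the two forms of the bound -/
theorem T_iff {a b c : ℕ} (hc : 2 < c) (u : ℝ) :
    u / Real.sqrt (Real.log (Real.log c)) ≤ T a b c ↔
      (Pool.Agent.D0H61.AB.rad (a * b * c) : ℝ) ≤ c * Real.exp (-u * V c) := by
  obtain ⟨h1, h2⟩ := loglog_pos hc
  have hc0 : (0 : ℝ) < c := by exact_mod_cast (by omega : 0 < c)
  have hr0 : (0 : ℝ) < rad (a * b * c) := by
    rw [rad_eq]
    exact rd_pos _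
  have e : (Pool.Agent.D0H61.AB.rad (a * b * c) : ℝ) = (rad (a * b * c) : ℝ) := rfl
  rw [e]
  unfold T V
  rw [Real.sqrt_div h1.le]
  have hs1 := Real.sqrt_pos.2 h1
  have hs2 := Real.sqrt_pos.2 h2
  rw [div_le_div_iff₀ hs2 hs1, Real.log_div hc0.ne' hr0.ne']
  have e2 : c * Real.exp (-u * (Real.sqrt (Real.log c) / Real.sqrt (Real.log (Real.log c)))) =
      Real.exp (Real.log c - u * Real.sqrt (Real.log c) / Real.sqrt (Real.log (Real.log c))) := by
    rw [sub_eq_add_neg, Real.exp_add, Real.exp_log hc0]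
    congr 2
    ring
  rw [e2, ← Real.log_le_iff_le_exp hr0]
  constructor
  · intro h
    have h3 : u * Real.sqrt (Real.log c) / Real.sqrt (Real.log (Real.log c)) ≤
        Real.log c - Real.log (rad (a * b * c)) := by
      rw [div_le_iff₀ hs2]
      exact h
    linarith
  · intro h
    have h3 : u * Real.sqrt (Real.log c) / Real.sqrt (Real.log (Real.log c)) ≤
        Real.log c - Real.log (rad (a * b * c)) := by linarith
    rwa [div_le_iff₀ hs2] at h3

theorem upperOrder_of {F : ℕ → ℕ → ℝ} (h : ∀ ε K : ℝ, 0 < ε → {t : ℕ × ℕ × ℕ | PC t ∧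
    |F t.1 t.2.1 - t.2.2| ≤ K ∧ (Pool.Agent.D0H61.AB.rad (t.1 * t.2.1 * t.2.2) : ℝ) ≤
      t.2.2 * Real.exp (-(4 * Real.sqrt 3 + ε) * V t.2.2)}.Finite) : UpperOrder F := by
  intro ε K hε
  refine (h ε K hε).subset ?_
  rintro t ⟨⟨h1, h2, h3, h4, h5, h6, h7⟩, h8⟩
  exact ⟨⟨h1, h2, by omega, h4, h5, h6⟩, h7, (T_iff h3 _).1 h8⟩

theorem lowerOrder_of' {F : ℕ → ℕ → ℝ} {c₀ k : ℝ} (hk : 0 < k)
    (hF : ∀ a b : ℕ, 0 < a → 0 < b → k * (a + b) ≤ F a b) (h : {t : ℕ × ℕ × ℕ | PC t ∧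
    |F t.1 t.2.1 - t.2.2| ≤ 2 ∧ (Pool.Agent.D0H61.AB.rad (t.1 * t.2.1 * t.2.2) : ℝ) ≤
      t.2.2 * Real.exp (-c₀ * V t.2.2)}.Infinite) :
    {t ∈ Close F 2 | c₀ / Real.sqrt (Real.log (Real.log t.2.2)) ≤ T t.1 t.2.1 t.2.2}.Infinite := by
  set N : ℕ := ⌈4 / k⌉₊ + 2 with hN
  have hfin2 : {t : ℕ × ℕ × ℕ | t.1 ≤ N ∧ t.2.1 ≤ N ∧ t.2.2 ≤ N}.Finite := by
    have : {t : ℕ × ℕ × ℕ | t.1 ≤ N ∧ t.2.1 ≤ N ∧ t.2.2 ≤ N} =
        Set.Iic N ×ˢ (Set.Iic N ×ˢ Set.Iic N) := by
      ext t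
      simp [Prod.le_def]
    rw [this]
    exact (Set.finite_Iic N).prod ((Set.finite_Iic N).prod (Set.finite_Iic N))
  refine (h.sdiff hfin2).mono ?_
  rintro ⟨a, b, c⟩ ⟨⟨h1, h2, h3⟩, h4⟩
  dsimp only at h2 h3
  have hc2 : 2 < c := by
    by_contra hc
    apply h4
    have hc' : (c : ℝ) ≤ 2 := by exact_mod_cast not_lt.1 hc
    have h5 := hF a b h1.1 h1.2.1
    have h6 := (abs_le.1 h2).2
    have ha0 : (0 : ℝ) ≤ a := Nat.cast_nonneg _
    have hb0 : (0 : ℝ) ≤ b := Nat.cast_nonneg _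
    have h7 : (a : ℝ) + b ≤ 4 / k := by
      rw [le_div_iff₀ hk]
      nlinarith
    have h8 := Nat.le_ceil (4 / k)
    have h9 : (a : ℝ) ≤ (⌈4 / k⌉₊ : ℕ) := by linarith
    have h10 : (b : ℝ) ≤ (⌈4 / k⌉₊ : ℕ) := by linarith
    have h9' : a ≤ ⌈4 / k⌉₊ := by exact_mod_cast h9
    have h10' : b ≤ ⌈4 / k⌉₊ := by exact_mod_cast h10
    refine ⟨?_, ?_, ?_⟩
    · show a ≤ N
      omega
    · show b ≤ N
      omega
    · show c ≤ N
      omega
  exact ⟨⟨h1.1, h1.2.1, hc2, h1.2.2.2.1, h1.2.2.2.2.1, h1.2.2.2.2.2, h2⟩, (T_iff hc2 _).2 h3⟩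

theorem lowerOrder_of {F : ℕ → ℕ → ℝ} {k : ℝ} (hk : 0 < k)
    (hF : ∀ a b : ℕ, 0 < a → 0 < b → k * (a + b) ≤ F a b)
    (h : ∀ ε : ℝ, 0 < ε → {t : ℕ × ℕ × ℕ | PC t ∧
    |F t.1 t.2.1 - t.2.2| ≤ 2 ∧ (Pool.Agent.D0H61.AB.rad (t.1 * t.2.1 * t.2.2) : ℝ) ≤
      t.2.2 * Real.exp (-(2 * Real.sqrt 2 - ε) * V t.2.2)}.Infinite) : LowerOrder F :=
  fun ε hε => lowerOrder_of' hk hF (h ε hε)

/-- all laws for one function -/
def All (F : ℕ → ℕ → ℝ) : Prop :=
  LowerOrder F ∧ UpperOrder F ∧ ∀ κ : ℝ, 0 ≤ κ → Law F κ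

theorem general2 (hUP : S_UP) {Λ : Type} [MeasurableSpace Λ] (μ : Measure Λ) (G : Λ → ℕ → ℕ → ℝ)
    (C : ℝ) (h : ∀ a b c : ℕ, 0 < a → 0 < b → 0 < c → ∀ W : ℝ, 1 ≤ W →
      μ {l | |G l a b - c| ≤ W} ≤ ENNReal.ofReal (C * W / max (max (a : ℝ) b) c)) :
    ∀ᵐ l ∂μ, ∀ k : ℝ, 0 < k → (∀ a b : ℕ, 0 < a → 0 < b → k * (a + b) ≤ G l a b) →
      UpperOrder (G l) ∧ ∀ κ : ℝ, 0 ≤ κ → Law (G l) κ := by
  filter_upwards [general μ G C h, upper_fam hUP μ G C h] with l h1 h2 k hk hG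
  exact ⟨upperOrder_of (h2 k hk hG), h1 k hk hG⟩

theorem main (hUP : S_UP) (hLOW : S_LOW2) :
    (∀ᵐ α : ℝ, 0 < α → All (fun a b => α * (a + b))) ∧
    (∀ᵐ p : ℝ × ℝ, 0 < p.1 → 0 < p.2 → All (fun a b => p.1 * a + p.2 * b)) := by
  have hlow := lower_both2 hLOW
  rw [ae_restrict_iff' measurableSet_Ioi] at hlow
  refine ⟨?_, ?_⟩
  · have h1 : ∀ M : ℕ, ∀ᵐ α : ℝ, α ∈ Set.Ioc (0 : ℝ) (M + 1 : ℕ) →
        UpperOrder (fun a b => α * (a + b)) ∧ ∀ κ : ℝ, 0 ≤ κ → Law (fun a b => α * (a + b)) κ := by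
      intro M
      rw [← ae_restrict_iff' measurableSet_Ioc]
      have h2 := general2 hUP (volume.restrict (Set.Ioc (0 : ℝ) (M + 1 : ℕ)))
        (fun α a b => α * ((a : ℝ) + b)) (4 * (M + 1 : ℕ)) (fun a b c ha hb hc W hW =>
          meas1 (M + 1) (by omega) a b c ha hb hc W hW)
      filter_upwards [h2, ae_restrict_mem measurableSet_Ioc] with α hα hm
      exact hα α hm.1 fun a b _ _ => le_rfl
    filter_upwards [ae_all_iff.2 h1, hlow] with α hα hl h0
    obtain ⟨M, hM⟩ := exists_nat_ge α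
    exact ⟨lowerOrder_of h0 (fun a b _ _ => le_rfl) fun ε hε => (hl h0 ε hε).2,
      hα M ⟨h0, hM.trans (by push_cast; linarith)⟩⟩
  · have h1 : ∀ M : ℕ, ∀ᵐ p : ℝ × ℝ,
        p ∈ Set.Ioc (0 : ℝ) (M + 1 : ℕ) ×ˢ Set.Ioc (0 : ℝ) (M + 1 : ℕ) →
        UpperOrder (fun a b => p.1 * a + p.2 * b) ∧
          ∀ κ : ℝ, 0 ≤ κ → Law (fun a b => p.1 * a + p.2 * b) κ := by
      intro M
      have hms : MeasurableSet (Set.Ioc (0 : ℝ) (M + 1 : ℕ) ×ˢ Set.Ioc (0 : ℝ) (M + 1 : ℕ)) :=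
        measurableSet_Ioc.prod measurableSet_Ioc
      rw [← ae_restrict_iff' hms]
      have h2 := general2 hUP (volume.restrict
          (Set.Ioc (0 : ℝ) (M + 1 : ℕ) ×ˢ Set.Ioc (0 : ℝ) (M + 1 : ℕ)))
        (fun p a b => p.1 * (a : ℝ) + p.2 * (b : ℝ)) (8 * (M + 1 : ℕ) ^ 2)
        (fun a b c ha hb hc W hW => meas2 (M + 1) (by omega) a b c ha hb hc W hW)
      filter_upwards [h2, ae_restrict_mem hms] with p hp hm
      refine hp (min p.1 p.2) (lt_min hm.1.1 hm.2.1) fun a b ha hb => ?_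
      have ha1 : (0 : ℝ) ≤ a := Nat.cast_nonneg _
      have hb1 : (0 : ℝ) ≤ b := Nat.cast_nonneg _
      have h3 : min p.1 p.2 * (a : ℝ) ≤ p.1 * a := mul_le_mul_of_nonneg_right (min_le_left _ _) ha1
      have h4 : min p.1 p.2 * (b : ℝ) ≤ p.2 * b := mul_le_mul_of_nonneg_right (min_le_right _ _) hb1
      rw [mul_add]
      linarith
    have hlow2 : ∀ᵐ p : ℝ × ℝ, p.2 ∈ Set.Ioi (0 : ℝ) → _ :=
      (Measure.quasiMeasurePreserving_snd (μ := (volume : Measure ℝ))
        (ν := (volume : Measure ℝ))).ae hlow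
    filter_upwards [ae_all_iff.2 h1, hlow2] with p hp hl h01 h02
    obtain ⟨M, hM⟩ := exists_nat_ge (max p.1 p.2)
    have h5 : p.1 ≤ (M + 1 : ℕ) := ((le_max_left _ _).trans hM).trans (by push_cast; linarith)
    have h6 : p.2 ≤ (M + 1 : ℕ) := ((le_max_right _ _).trans hM).trans (by push_cast; linarith)
    refine ⟨lowerOrder_of (lt_min h01 h02) (fun a b ha hb => ?_) (fun ε hε => (hl h02 ε hε).1 p.1 h01.le),
      hp M ⟨⟨h01, h5⟩, ⟨h02, h6⟩⟩⟩
    have ha1 : (0 : ℝ) ≤ a := Nat.cast_nonneg _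
    have hb1 : (0 : ℝ) ≤ b := Nat.cast_nonneg _
    have h3 : min p.1 p.2 * (a : ℝ) ≤ p.1 * a := mul_le_mul_of_nonneg_right (min_le_left _ _) ha1
    have h4 : min p.1 p.2 * (b : ℝ) ≤ p.2 * b := mul_le_mul_of_nonneg_right (min_le_right _ _) hb1
    rw [mul_add]
    linarith

theorem aLOW2 : S_LOW2 :=
  Pool.Agent.D0H61.AB.t_LOW2 (Pool.Agent.D0H31.AB.t_LOC2
    (Pool.Agent.D0H8.AB.t_FAM2 Pool.Agent.D0H31.AB.t_PNTB Pool.Agent.D0H9.AB.t_SIMP
      Pool.Agent.D0H42.AB.t_BIN)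
    Pool.Agent.D0H62.AB.t_NEAR Pool.Agent.D0H22.AB.t_OVL Pool.Agent.D0H92.AB.t_FST
    Pool.Agent.D0H9.AB.t_PZ)

/-- **Main theorem.** -/
theorem result :
    (∀ᵐ α : ℝ, 0 < α → All (fun a b => α * (a + b))) ∧
    (∀ᵐ p : ℝ × ℝ, 0 < p.1 → 0 < p.2 → All (fun a b => p.1 * a + p.2 * b)) ∧
    (∀ (Λ : Type) [MeasurableSpace Λ] (μ : Measure Λ) (G : Λ → ℕ → ℕ → ℝ) (C : ℝ),
      (∀ a b c : ℕ, 0 < a → 0 < b → 0 < c → ∀ W : ℝ, 1 ≤ W →
        μ {l | |G l a b - c| ≤ W} ≤ ENNReal.ofReal (C * W / max (max (a : ℝ) b) c)) →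
      ∀ᵐ l ∂μ, ∀ k : ℝ, 0 < k → (∀ a b : ℕ, 0 < a → 0 < b → k * (a + b) ≤ G l a b) →
        UpperOrder (G l) ∧ ∀ κ : ℝ, 0 ≤ κ → Law (G l) κ) ∧
    (∀ (F : ℕ → ℕ → ℝ) (k : ℝ), 0 < k → (∀ a b : ℕ, 0 < a → 0 < b → k * (a + b) ≤ F a b) →
      ∀ κ : ℝ, 0 ≤ κ → LowerHalf F κ) := by
  obtain ⟨h1, h2⟩ := main Pool.Agent.D0H61.AB.aUP aLOW2
  exact ⟨h1, h2, fun Λ _ μ G C h => general2 Pool.Agent.D0H61.AB.aUP μ G C h,
    fun F k hk hF κ hκ => lower hk hF hκ⟩

end Pool.Agent.Results.MP_4ab349_nt.GenericDilations
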