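import Pool.Agent.D0H71.CM.AbcPairs

/-!
# `T(a, b, c)` is negative for the abc-triples near the values of compositions of multiplicative functions

Let `F = f_1 ∘ f_2 ∘ ... ∘ f_r` be any composition of positive multiplicative functions of at most polynomial growth, which are
at most linear and injective at the large primes: for example `F m = φ (σ (φ m))`. Let `G` have steps bounded below by a positive
constant and growth at most `v ^ d`, for example `G v = v` or `α v ^ d`. If `d A f (η) + κ < 1` (`f (0) = 15 / 28`), then for all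
`m ≤ N` but `N / (log N) ^ U` EVERY abc-triple one of whose members `n` is within `F(m) ^ κ` of `G (F m)`, and with `c ≤ n ^ A`,
has `T < - η √(log c) - K / √(log c)`; in particular `T < 0 < 1`, the inequality of the question.

For pairs `(m_1, m_2)` of numbers up to `N` and two compositions, for all but `N ^ 2 / (log N) ^ U` pairs the abc-triple
obtained from `F_1 (m_1) + F_2 (m_2)` by division by the greatest common divisor has `T < - η √(log c) - K / √(log c)` for every
`η < 2`, that is `rad (abc) > exp K * c ^ (1 + η)`.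

The values of `F` are taken with very large multiplicities, and no fibre of `F` is understood: it is proved that `F m = k u` for
almost all `m`, where `k ≤ N ^ η` and `u` is squarefree, coprime to `k`, without prime factors below `(log log N) ^ B`
and almost all of `log N / log u` is carried by its large prime factors; this passes to the next function.
-/

set_option autoImplicit false

namespace Pool.Agent.Results.MP_4ab349_nt.IteratedFunctions

open Finset
open Pool.Agent.N733.TG (LM Expanding lm_totient lm_sigma expanding_pow)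
open Pool.Agent.D0H71.CM (Comp av_comp ckeep_good_nat)
open Pool.Agent.D0H71.CM.AbcPairs (PairGood pairs)
open Pool.Agent.Results.MP_4ab349_nt.SequenceMembers (Good f)

open Classical in
lemma count (A η K : ℝ) (hA : 1 ≤ A) (h0 : 0 ≤ η) (h1 : η < 7 / 9) (ε : ℝ) (hε : 0 < ε) : ∃ C : ℝ, ∀ X : ℕ, 1 ≤ X →
    ({t : ℕ | 1 ≤ t ∧ t ≤ X ∧ True ∧ ¬ Good A η K t}.ncard : ℝ) ≤ C * (X : ℝ) ^ (A * f η + ε) := by
  obtain ⟨C, hC⟩ := Pool.Agent.Y854.AB.count (Real.exp K) (1 + η) A (by linarith) (by linarith) ε hε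
  rw [SequenceMembers.Fx_eq η h0 h1] at hC
  refine ⟨C, fun X hX => le_trans ?_ (hC X hX)⟩
  have hsub : {t : ℕ | 1 ≤ t ∧ t ≤ X ∧ True ∧ ¬ Good A η K t} ⊆
      ((Ioc 0 X).filter (fun m => m ∈ Pool.Agent.Y854.AB.Bad (Real.exp K) (1 + η) A) : Finset ℕ) := by
    rintro t ⟨a1, a2, _, a3⟩
    rw [mem_coe, mem_filter, mem_Ioc]
    refine ⟨⟨a1, a2⟩, ?_⟩
    by_contra hcon
    exact a3 (SequenceMembers.good_of A η K t hcon)
  have h2 := Set.ncard_le_ncard hsub (finite_toSet _)
  rw [Set.ncard_coe_finset] at h2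
  exact_mod_cast h2

lemma f_nonneg (η : ℝ) (h0 : 0 ≤ η) : 0 ≤ f η := by
  unfold f
  split_ifs <;> linarith

/-- **Theorem.** (1) Let `F` be a composition of functions of the class `LM`, `G` expanding of growth `d`, `A ≥ 1`,
`0 ≤ η < 7 / 9`, `κ ≥ 0`, `d A f(η) + κ < 1`. For every `K`, `U` and all large `N`, for all `m ≤ N` but `N / (log N) ^ U` all the
integers `n ≥ 1` with `|n - G (F m)| ≤ F(m) ^ κ` are `Good A η K`. (2) Let `F 0`, `F 1` be compositions of functions of the class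
`LM` and `0 ≤ η < 2`. For every `K`, `U` and all large `N`, for all but `N ^ 2 / (log N) ^ U` of the pairs `(m_0, m_1)` of
positive integers up to `N` the reduced abc-triple of the pair `F 0 (m_0)`, `F 1 (m_1)` satisfies
`T < - η √(log c) - K / √(log c)`. (3) Euler's function and the sum of the divisors belong to `LM`; `α v ^ d` is expanding. -/
theorem result :
    (∀ F : ℕ → ℕ, Comp F → ∀ (G : ℕ → ℝ) (d : ℝ), Expanding G d → ∀ A η K κ : ℝ, 1 ≤ A → 0 ≤ η → η < 7 / 9 → 0 ≤ κ →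
      d * (A * f η) + κ < 1 → ∀ U : ℕ, ∃ N₀ : ℕ, ∀ N : ℕ, N₀ ≤ N →
      ({m : ℕ | 1 ≤ m ∧ m ≤ N ∧ ¬ ∀ n : ℕ, 1 ≤ n → |(n : ℝ) - G (F m)| ≤ (F m : ℝ) ^ κ →
        Good A η K n}.ncard : ℝ) ≤ N / Real.log N ^ U) ∧
    (∀ F : Fin 2 → ℕ → ℕ, (∀ i, Comp (F i)) → ∀ η K : ℝ, 0 ≤ η → η < 2 → ∀ U : ℕ, ∃ N₀ : ℕ, ∀ N : ℕ, N₀ ≤ N →
      ({m : Fin 2 → ℕ | (∀ i, 1 ≤ m i ∧ m i ≤ N) ∧ ¬ PairGood η K (F 0 (m 0)) (F 1 (m 1))}.ncard : ℝ) ≤
        (N : ℝ) ^ 2 / Real.log N ^ U) ∧
    (LM Nat.totient ∧ LM (fun m => ∑ d ∈ m.divisors, d)) ∧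
    ∀ α d : ℝ, 0 < α → 1 ≤ d → Expanding (fun v => α * (v : ℝ) ^ d) d := by
  classical
  refine ⟨fun F hF G d hG A η K κ hA h0 hη hκ h1 U => ?_, fun F hF η K h0 h1 U => pairs hF h0 h1 K U,
    ⟨lm_totient, lm_sigma⟩, fun α d hα hd => expanding_pow hα hd⟩
  obtain ⟨N₀, hN₀⟩ := ckeep_good_nat (fun _ => True) (Good A η K) (av_comp hF) hG (s := A * f η) (κ := κ)
    (mul_nonneg (by linarith) (f_nonneg η h0)) hκ h1 (fun ε hε => count A η K hA h0 hη ε hε) U
  refine ⟨N₀, fun N hN => le_trans (le_of_eq ?_) (hN₀ N hN)⟩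
  congr 2
  ext m
  simp only [Set.mem_ofPred_eq]
  have : (∀ n : ℕ, 1 ≤ n → |(n : ℝ) - G (F m)| ≤ (F m : ℝ) ^ κ → Good A η K n) ↔
      ∀ n : ℕ, 1 ≤ n → True → |(n : ℝ) - G (F m)| ≤ (F m : ℝ) ^ κ → Good A η K n :=
    ⟨fun h n hn _ => h n hn, fun h n hn => h n hn trivial⟩
  rw [this]

end Pool.Agent.Results.MP_4ab349_nt.IteratedFunctions
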