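import Pool.Agent.D0H71.RPR.Down
import Pool.Agent.Results.MP_4ab349_nt.SequenceMembers

/-!
# abc-triples composed of the primes of a random set

Let `S` be a random set of primes, different primes `p₁, …, p_k` of which belong to `S` together with probability at most
`∏ K p_i ^ (-θ)` (for instance independent events of probability `O(p ^ (-θ))`), `4 / 7 < θ < 1`. Almost surely all but finitely
many of the abc-triples with `c ≤ rad (abc) ^ A` all of whose primes belong to `S` satisfy `T < - η √(log c)`, for every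
`η < θ / (1 - θ)` (where `θ / (1 - θ) > 4 / 3`) and every `A`; that is, `rad (abc) > c ^ l` for every `l < 1 / (1 - θ)`. The
exponent is the right one: if the probability is at least `∏ k p_i ^ (-θ)`, `1 / 2 ≤ θ < 2 / 3`, the mean of the number of the
triples composed of primes of `S` with `c ≤ rad (abc) ^ A` and `T ≥ - η √(log c)` is infinite for every `η > θ / (1 - θ)`.
-/

set_option autoImplicit false

namespace Pool.Agent.Results.MP_4ab349_nt.RandomPrimes

open MeasureTheory Filter Topology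
open Pool.Agent.D0H71.RPR (Triple R ht Composed Upper Lower two_le_ht R_one range_steps mean_infinite)
open Pool.Agent.Results.MP_4ab349_nt.SequenceMembers (T)

/-- `T ≥ - η √(log c)` for the triple `t = (a, b)`, `c = a + b` -/
def TLarge (η : ℝ) (t : ℕ × ℕ) : Prop :=
  - η * Real.sqrt (Real.log (ht t)) ≤ T t.1 t.2 (t.1 + t.2)

lemma tlarge_iff (η : ℝ) {t : ℕ × ℕ} (h : Triple t) : TLarge η t ↔ (R t : ℝ) ≤ ht t ^ (1 + η) := by
  have hc := two_le_ht h
  have hc0 : 0 < ht t := by linarith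
  have hl : 0 < Real.log (ht t) := Real.log_pos (by linarith)
  have hR : (0 : ℝ) < R t := by linarith [R_one t]
  obtain ⟨q, hq⟩ : ∃ q, q = Real.sqrt (Real.log (ht t)) := ⟨_, rfl⟩
  have hq0 : 0 < q := by rw [hq]; exact Real.sqrt_pos.mpr hl
  have hqq : q * q = Real.log (ht t) := by rw [hq]; exact Real.mul_self_sqrt hl.le
  have hT : T t.1 t.2 (t.1 + t.2) = (Real.log (ht t) - Real.log (R t)) / q := by
    rw [hq, ← Real.log_div hc0.ne' hR.ne']
    rfl
  unfold TLarge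
  have e : - η * q * q = - (η * Real.log (ht t)) := by rw [mul_assoc, hqq]; ring
  rw [hT, ← hq, le_div_iff₀ hq0, ← Real.log_le_log_iff hR (Real.rpow_pos_of_pos hc0 _), Real.log_rpow hc0, e]
  constructor
  · intro h1
    linarith
  · intro h1
    linarith

theorem part_one {Ω : Type} [MeasurableSpace Ω] (P : Measure Ω) (E : ℕ → Set Ω) (K θ : ℝ)
    (hU : Upper P E K θ) (hθ : 4 / 7 < θ) (hθ1 : θ < 1) :
    ∀ᵐ ω ∂P, ∀ A η : ℝ, η < θ / (1 - θ) →
      {t | Triple t ∧ Composed E ω t ∧ ht t ≤ (R t : ℝ) ^ A ∧ TLarge η t}.Finite := by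
  have h1θ : 0 < 1 - θ := by linarith
  have hid : 1 / (1 - θ) = 1 + θ / (1 - θ) := by
    field_simp
    ring
  have hq0 : 0 < θ / (1 - θ) := div_pos (by linarith) h1θ
  have hall : ∀ᵐ ω ∂P, ∀ m n : ℕ, {t | (Triple t ∧ ht t ^ (1 / ((m : ℝ) + 1)) ≤ (R t : ℝ) ∧
      (R t : ℝ) ≤ ht t ^ (max (1 + (θ / (1 - θ) - 1 / ((n : ℝ) + 1))) 1)) ∧ Composed E ω t}.Finite := by
    rw [ae_all_iff]
    intro m
    rw [ae_all_iff]
    intro n
    refine range_steps hU hθ hθ1 (by positivity) ?_ ?_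
    · refine le_trans ?_ (le_max_right _ _)
      rw [div_le_one (by positivity)]
      have : (0 : ℝ) ≤ m := by positivity
      linarith
    · rw [hid]
      have : 0 < 1 / ((n : ℝ) + 1) := by positivity
      exact max_lt (by linarith) (by linarith)
  filter_upwards [hall] with ω hω
  intro A η hη
  obtain ⟨m, hm⟩ := exists_nat_ge A
  obtain ⟨n, hn⟩ := exists_nat_one_div_lt (show 0 < θ / (1 - θ) - η by linarith)
  refine (hω m n).subset ?_
  rintro t ⟨a1, a2, a3, a4⟩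
  have hc := two_le_ht a1
  have hR1 := R_one t
  refine ⟨⟨a1, ?_, ?_⟩, a2⟩
  · have hm0 : (0 : ℝ) ≤ m := by positivity
    have h3 : ht t ≤ (R t : ℝ) ^ ((m : ℝ) + 1) :=
      a3.trans (Real.rpow_le_rpow_of_exponent_le hR1 (by linarith))
    calc ht t ^ (1 / ((m : ℝ) + 1)) ≤ ((R t : ℝ) ^ ((m : ℝ) + 1)) ^ (1 / ((m : ℝ) + 1)) :=
          Real.rpow_le_rpow (by linarith) h3 (by positivity)
      _ = R t := by
          rw [← Real.rpow_mul (by linarith), mul_one_div_cancel (by positivity), Real.rpow_one]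
  · refine ((tlarge_iff η a1).1 a4).trans (Real.rpow_le_rpow_of_exponent_le (by linarith) ?_)
    exact le_max_of_le_left (by linarith)

theorem independent_events {Ω : Type} [MeasurableSpace Ω] (P : Measure Ω) (E : ℕ → Set Ω) (K θ : ℝ) (hK : 0 < K)
    (hind : ProbabilityTheory.iIndepSet E P) :
    ((∀ p : ℕ, p.Prime → P (E p) ≤ ENNReal.ofReal (K * (p : ℝ) ^ (-θ))) → Upper P E K θ) ∧
    ((∀ p : ℕ, p.Prime → ENNReal.ofReal (K * (p : ℝ) ^ (-θ)) ≤ P (E p)) → Lower P E K θ) := by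
  have h1 : ∀ Q : Finset ℕ, P {ω | ∀ p ∈ Q, ω ∈ E p} = ∏ p ∈ Q, P (E p) := by
    intro Q
    rw [← ProbabilityTheory.iIndepSet.meas_biInter hind Q]
    congr 1
    ext ω
    simp
  have h2 : ∀ Q : Finset ℕ, ENNReal.ofReal (∏ p ∈ Q, K * (p : ℝ) ^ (-θ)) =
      ∏ p ∈ Q, ENNReal.ofReal (K * (p : ℝ) ^ (-θ)) := fun Q =>
    ENNReal.ofReal_prod_of_nonneg fun p _ => by positivity
  refine ⟨fun h => ⟨hK, fun Q hQ => ?_⟩, fun h => ⟨hK, fun Q hQ => ?_⟩⟩
  · rw [h1, h2]
    exact Finset.prod_le_prod' fun p hp => h p (hQ p hp)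
  · rw [h1, h2]
    exact Finset.prod_le_prod' fun p hp => h p (hQ p hp)

/-- **Theorem.** (1) If `Upper P E K θ`, `4 / 7 < θ < 1`, almost surely for all `A` and all `η < θ / (1 - θ)` only finitely many
abc-triples composed of the primes of the random set have `c ≤ rad (abc) ^ A` and `T ≥ - η √(log c)`. (2) If `Lower P E k θ`,
`1 / 2 ≤ θ < 2 / 3`, for all `A > 1` and `η > θ / (1 - θ)` the mean of the number of these triples is infinite. (3) Independent
events of probability at most (at least) `K p ^ (-θ)` satisfy `Upper` (`Lower`). -/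
theorem result :
    (∀ (Ω : Type) [MeasurableSpace Ω] (P : Measure Ω) (E : ℕ → Set Ω) (K θ : ℝ), Upper P E K θ → 4 / 7 < θ → θ < 1 →
      ∀ᵐ ω ∂P, ∀ A η : ℝ, η < θ / (1 - θ) →
        {t | Triple t ∧ Composed E ω t ∧ ht t ≤ (R t : ℝ) ^ A ∧ TLarge η t}.Finite) ∧
    (∀ (Ω : Type) [MeasurableSpace Ω] (P : Measure Ω) (E : ℕ → Set Ω) (k θ : ℝ), Lower P E k θ → 1 / 2 ≤ θ → θ < 2 / 3 →
      ∀ A η : ℝ, 1 < A → θ / (1 - θ) < η →
        ∑' t : {t : ℕ × ℕ | Triple t ∧ ht t ≤ (R t : ℝ) ^ A ∧ TLarge η t}, P {ω | Composed E ω t.1} = ⊤) ∧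
    ∀ (Ω : Type) [MeasurableSpace Ω] (P : Measure Ω) (E : ℕ → Set Ω) (K θ : ℝ), 0 < K → ProbabilityTheory.iIndepSet E P →
      ((∀ p : ℕ, p.Prime → P (E p) ≤ ENNReal.ofReal (K * (p : ℝ) ^ (-θ))) → Upper P E K θ) ∧
      ((∀ p : ℕ, p.Prime → ENNReal.ofReal (K * (p : ℝ) ^ (-θ)) ≤ P (E p)) → Lower P E K θ) := by
  refine ⟨fun Ω _ P E K θ hU h1 h2 => part_one P E K θ hU h1 h2, fun Ω _ P E k θ hL h1 h2 A η hA hη => ?_,
    fun Ω _ P E K θ hK hind => independent_events P E K θ hK hind⟩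
  have h1θ : 0 < 1 - θ := by linarith
  have hid : 1 / (1 - θ) = 1 + θ / (1 - θ) := by
    field_simp
    ring
  have h3 := mean_infinite hL h1 h2 (1 + η) A (by linarith) hA
  have hset : {t : ℕ × ℕ | Triple t ∧ ht t ≤ (R t : ℝ) ^ A ∧ TLarge η t} =
      {t : ℕ × ℕ | Triple t ∧ ht t ≤ (R t : ℝ) ^ A ∧ (R t : ℝ) ≤ ht t ^ (1 + η)} := by
    ext t
    constructor
    · rintro ⟨a1, a2, a3⟩
      exact ⟨a1, a2, (tlarge_iff η a1).1 a3⟩
    · rintro ⟨a1, a2, a3⟩
      exact ⟨a1, a2, (tlarge_iff η a1).2 a3⟩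
  rw [hset]
  exact h3

end Pool.Agent.Results.MP_4ab349_nt.RandomPrimes
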