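import Pool.Agent.D0H71.TPY.Eng
import Pool.Agent.D0H71.TPY.Prs

/-!
# The abc-triples at the values of typical polynomials

Consider the polynomials `f` of degree at most `d` with coefficients in `{1, ..., H}`. For all the pairs `(f, g)` of them but
`H ^ (2 (d + 1) - κ)`, at ALL the positive integers `n ≤ H ^ A` with `f (n)`, `g (n)` coprime the abc-triple
`(f (n), g (n), f (n) + g (n))` has `T < - η √(log c) - K / √(log c)`, if `A (d F η + 1) + F η < 2 (d + 1)`. For `η = 0`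
(`F 0 = 15 / 28`) this is `A < (56 d + 41) / (15 d + 28)`; so `T < 0` for all these `n`, up to `n ≤ H ^ (97 / 43 - ε)` for linear
polynomials and up to `n ≤ H ^ (56 / 15 - ε)` for large `d`. At ALL the `n ≤ H ^ A`, whether `f (n)`, `g (n)` are coprime or not,
the triple obtained from `f (n) + g (n)` by division by the greatest common divisor has this property if the condition holds with
`max 1 (F η)` in place of `F η`, for example `A < (2 d + 1) / (d + 1)` for `η ≤ 1`.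

For all the polynomials `f` but `H ^ (d + 1 - κ)`, at all the positive integers `n ≤ H ^ A` EVERY abc-triple with the member
`f (n)` and with `c ≤ f (n) ^ B` has `T < - η √(log c) - K / √(log c)`, if `A (d B f η + 1) + B f η < d + 1`.
-/

set_option autoImplicit false

namespace Pool.Agent.Results.MP_4ab349_nt.TypicalPolynomials

open Finset
open Pool.Agent.D0H71.TPY (val engine)
open Pool.Agent.D0H71.CM.AbcPairs (T_lt PairGood)
open Pool.Agent.W221.ABC7 (Fx ExcB count_FxB excB_finite Fx_pos)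
open Pool.Agent.Results.MP_4ab349_nt.SequenceMembers (T Good good_of f Fx_eq)

/-- `T (a, b, a + b) < - η √(log (a + b)) - K / √(log (a + b))` -/
def TSmall (η K : ℝ) (a b : ℕ) : Prop :=
  T a b (a + b) < - η * Real.sqrt (Real.log ((a + b : ℕ) : ℝ)) - K / Real.sqrt (Real.log ((a + b : ℕ) : ℝ))

/-- increasing from `15 / 28` for `η = 0` to `2` for `η = 2` -/
noncomputable def F (η : ℝ) : ℝ :=
  if η ≤ 1 / 2 then 5 * (10 * η + 9) / 84 else if η ≤ 7 / 9 then (9 * η + 8) / 15 else max 1 η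

lemma F_eq (η : ℝ) (h0 : 0 ≤ η) : Fx (1 + η) = F η := by
  unfold Fx F
  rcases h0.eq_or_lt with h | h
  · subst h
    norm_num
  rw [if_neg (show ¬ (1 + η ≤ 2 / 3) by linarith), if_neg (show ¬ (1 + η ≤ 1) by linarith)]
  by_cases h2 : η ≤ 1 / 2
  · rw [if_pos (show 1 + η ≤ 3 / 2 by linarith), if_pos h2]
    ring
  rw [if_neg (show ¬ (1 + η ≤ 3 / 2) by linarith), if_neg h2]
  by_cases h3 : η ≤ 7 / 9
  · rw [if_pos (show 1 + η ≤ 16 / 9 by linarith), if_pos h3]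
    ring
  rw [if_neg (show ¬ (1 + η ≤ 16 / 9) by linarith), if_neg h3]
  by_cases h4 : η ≤ 1
  · rw [if_pos (show 1 + η ≤ 2 by linarith), max_eq_left h4]
  · rw [if_neg (show ¬ (1 + η ≤ 2) by linarith), max_eq_right (by linarith)]
    ring

/-- the exceptional pairs -/
def BadPairs (η K : ℝ) : Set (Fin 2 → ℕ) :=
  {v | 0 < v 0 ∧ 0 < v 1 ∧ Nat.Coprime (v 0) (v 1) ∧ ¬ TSmall η K (v 0) (v 1)}

open Classical in
lemma pairs_count (η K ε : ℝ) (h0 : 0 ≤ η) (hε : 0 < ε) : ∃ C : ℝ, ∀ X : ℕ, 1 ≤ X →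
    (((Fintype.piFinset fun _ : Fin 2 => Finset.Iic X).filter (fun v => v ∈ BadPairs η K)).card : ℝ) ≤
      C * (X : ℝ) ^ (F η + ε) := by
  obtain ⟨C, hC⟩ := count_FxB (Real.exp K) (1 + η) ε (by linarith) hε
  rw [F_eq η h0] at hC
  have hF : 0 < F η := by rw [← F_eq η h0]; exact Fx_pos _ (by linarith)
  refine ⟨|C| * 2 ^ (F η + ε), fun X hX => ?_⟩
  have hX0 : (0 : ℝ) ≤ X := by positivity
  have h1 := hC (2 * X) (by omega)
  have hmaps : ∀ v ∈ (Fintype.piFinset fun _ : Fin 2 => Finset.Iic X).filter (fun v => v ∈ BadPairs η K),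
      ((v 0, v 1, v 0 + v 1) : ℕ × ℕ × ℕ) ∈ ExcB (Real.exp K) (1 + η) (2 * X) := by
    intro v hv
    rw [Finset.mem_filter, Fintype.mem_piFinset] at hv
    obtain ⟨h2, h3, h4, h5, h6⟩ := hv
    have h7 := h2 0
    have h8 := h2 1
    rw [Finset.mem_Iic] at h7 h8
    refine ⟨h3, h4, h5, rfl, by simp only; omega, ?_⟩
    by_contra hcon
    exact h6 (T_lt h3 h4 (not_le.1 hcon))
  have hfin := excB_finite (Real.exp K) (1 + η) (2 * X)
  have h2 : ((Fintype.piFinset fun _ : Fin 2 => Finset.Iic X).filter (fun v => v ∈ BadPairs η K)).card ≤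
      (ExcB (Real.exp K) (1 + η) (2 * X)).ncard := by
    rw [Set.ncard_eq_toFinset_card _ hfin]
    refine Finset.card_le_card_of_injOn (fun v => ((v 0, v 1, v 0 + v 1) : ℕ × ℕ × ℕ)) ?_ ?_
    · intro v hv
      exact Finset.mem_coe.2 ((Set.Finite.mem_toFinset hfin).2 (hmaps v (Finset.mem_coe.1 hv)))
    · intro v _ w _ h
      simp only [Prod.mk.injEq] at h
      funext i
      fin_cases i
      · exact h.1
      · exact h.2.1
  calc (((Fintype.piFinset fun _ : Fin 2 => Finset.Iic X).filter (fun v => v ∈ BadPairs η K)).card : ℝ)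
      ≤ ((ExcB (Real.exp K) (1 + η) (2 * X)).ncard : ℝ) := by exact_mod_cast h2
    _ ≤ C * ((2 * X : ℕ) : ℝ) ^ (F η + ε) := h1
    _ ≤ |C| * ((2 * X : ℕ) : ℝ) ^ (F η + ε) := mul_le_mul_of_nonneg_right (le_abs_self C) (by positivity)
    _ = |C| * 2 ^ (F η + ε) * (X : ℝ) ^ (F η + ε) := by
        push_cast
        rw [Real.mul_rpow (by norm_num) hX0]
        ring

open Classical in
lemma reduced_count (η K ε : ℝ) (h0 : 0 ≤ η) (hε : 0 < ε) : ∃ C : ℝ, ∀ X : ℕ, 1 ≤ X →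
    (((Fintype.piFinset fun _ : Fin 2 => Finset.Iic X).filter
      (fun v => v ∈ {v : Fin 2 → ℕ | (∀ i, 1 ≤ v i) ∧ ¬ PairGood η K (v 0) (v 1)})).card : ℝ) ≤
      C * (X : ℝ) ^ (max 1 (F η) + ε) := by
  obtain ⟨C, hC⟩ := Pool.Agent.D0H71.TPY.pair_count_explicit η K ε h0 hε
  rw [F_eq η h0, max_comm] at hC
  refine ⟨C, fun X hX => le_trans ?_ (hC X hX)⟩
  have hfin : {w : Fin 2 → ℕ | w ∈ {w : Fin 2 → ℕ | ¬ PairGood η K (w 0) (w 1)} ∧ ∀ i, 1 ≤ w i ∧ w i ≤ X}.Finite := by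
    refine (Finset.finite_toSet (Fintype.piFinset fun _ : Fin 2 => Finset.Iic X)).subset ?_
    rintro w ⟨-, hw⟩
    exact Finset.mem_coe.2 (Fintype.mem_piFinset.2 fun i => Finset.mem_Iic.2 (hw i).2)
  have hsub : (((Fintype.piFinset fun _ : Fin 2 => Finset.Iic X).filter
      (fun v => v ∈ {v : Fin 2 → ℕ | (∀ i, 1 ≤ v i) ∧ ¬ PairGood η K (v 0) (v 1)}) : Finset (Fin 2 → ℕ)) :
      Set (Fin 2 → ℕ)) ⊆
      {w : Fin 2 → ℕ | w ∈ {w : Fin 2 → ℕ | ¬ PairGood η K (w 0) (w 1)} ∧ ∀ i, 1 ≤ w i ∧ w i ≤ X} := by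
    intro v hv
    have hv' := Finset.mem_filter.1 (Finset.mem_coe.1 hv)
    rw [Fintype.mem_piFinset] at hv'
    exact ⟨hv'.2.2, fun i => ⟨hv'.2.1 i, Finset.mem_Iic.1 (hv'.1 i)⟩⟩
  have h1 := Set.ncard_le_ncard hsub hfin
  rw [Set.ncard_coe_finset] at h1
  exact_mod_cast h1

lemma f_nonneg (η : ℝ) (h0 : 0 ≤ η) : 0 ≤ f η := by
  unfold f
  split_ifs <;> linarith

open Classical in
lemma good_count (B η K ε : ℝ) (hB : 1 ≤ B) (h0 : 0 ≤ η) (h1 : η < 7 / 9) (hε : 0 < ε) : ∃ C : ℝ, ∀ X : ℕ, 1 ≤ X →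
    (((Fintype.piFinset fun _ : Fin 1 => Finset.Iic X).filter
      (fun v => v ∈ {v : Fin 1 → ℕ | 0 < v 0 ∧ ¬ Good B η K (v 0)})).card : ℝ) ≤
      C * (X : ℝ) ^ (B * f η + ε) := by
  obtain ⟨C, hC⟩ := Pool.Agent.Y854.AB.count (Real.exp K) (1 + η) B (by linarith) (by linarith) ε hε
  rw [Fx_eq η h0 h1] at hC
  refine ⟨C, fun X hX => le_trans ?_ (hC X hX)⟩
  have h2 : ((Fintype.piFinset fun _ : Fin 1 => Finset.Iic X).filter
      (fun v => v ∈ {v : Fin 1 → ℕ | 0 < v 0 ∧ ¬ Good B η K (v 0)})).card ≤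
      ((Ioc 0 X).filter (fun m => m ∈ Pool.Agent.Y854.AB.Bad (Real.exp K) (1 + η) B)).card := by
    refine Finset.card_le_card_of_injOn (fun v => v 0) ?_ ?_
    · intro v hv
      have hv' := Finset.mem_filter.1 (Finset.mem_coe.1 hv)
      rw [Fintype.mem_piFinset] at hv'
      obtain ⟨h2, h3, h4⟩ := hv'
      have h5 := h2 0
      rw [Finset.mem_Iic] at h5
      refine Finset.mem_coe.2 (Finset.mem_filter.2 ⟨Finset.mem_Ioc.2 ⟨h3, h5⟩, ?_⟩)
      by_contra hcon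
      exact h4 (good_of B η K _ hcon)
    · intro v _ w _ h
      funext i
      obtain ⟨i, hi⟩ := i
      have h3 : i = 0 := by omega
      subst h3
      exact h
  exact_mod_cast h2

/-- room for a small `ε` -/
lemma room (A d s b : ℝ) (hA : 1 ≤ A) (hd : 0 ≤ d) (h : A * (d * s + 1) + s < b) :
    ∃ ε : ℝ, 0 < ε ∧ A * (d * (s + ε) + 1) + (s + ε) < b := by
  refine ⟨(b - (A * (d * s + 1) + s)) / (2 * (A * d + 1)), div_pos (by linarith) (by positivity), ?_⟩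
  obtain ⟨g, hg⟩ : ∃ g, g = b - (A * (d * s + 1) + s) := ⟨_, rfl⟩
  have hg0 : 0 < g := by rw [hg]; linarith
  have hAd : 0 < A * d + 1 := by positivity
  rw [← hg]
  have h1 : (A * d + 1) * (g / (2 * (A * d + 1))) = g / 2 := by
    field_simp
  have h2 : A * (d * (s + g / (2 * (A * d + 1))) + 1) + (s + g / (2 * (A * d + 1))) =
      A * (d * s + 1) + s + (A * d + 1) * (g / (2 * (A * d + 1))) := by ring
  rw [h2, h1]
  linarith

/-- **Theorem.** The polynomial with the coefficients `c 0, ..., c d` has the value `val c n` at `n`.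
(1) If `0 ≤ η < 2`, `A ≥ 1` and `A (d F η + 1) + F η < 2 (d + 1)`, for some `κ > 0` and all large `H`, for all the pairs of
polynomials with coefficients in `{1, ..., H}` but `H ^ (2 (d + 1) - κ)` and all the positive integers `n ≤ H ^ A` at which their
values `a`, `b` are coprime we have `T (a, b, a + b) < - η √(log (a + b)) - K / √(log (a + b))`.
(2) If `A (d s + 1) + s < 2 (d + 1)` for `s = max 1 (F η)`, at ALL the positive integers `n ≤ H ^ A` the triple `(a, b, a + b)`,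
divided by the greatest common divisor of `a` and `b`, has this property (`PairGood`), with the same exceptions.
(3) If `0 ≤ η < 7 / 9`, `A, B ≥ 1` and `A (d B f η + 1) + B f η < d + 1`, for some `κ > 0` and all large `H`, for all the
polynomials with coefficients in `{1, ..., H}` but `H ^ (d + 1 - κ)` and all the positive integers `n ≤ H ^ A` the value at `n` is
`Good B η K`: every abc-triple with this member and `c` at most its power `B` satisfies this inequality. -/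
theorem result :
    (∀ (d : ℕ) (A η K : ℝ), 1 ≤ A → 0 ≤ η → η < 2 → A * (d * F η + 1) + F η < 2 * (d + 1) →
      ∃ κ : ℝ, 0 < κ ∧ ∃ H₀ : ℕ, ∀ H : ℕ, H₀ ≤ H →
      ({c : Fin 2 → Fin (d + 1) → ℕ | (∀ i j, 1 ≤ c i j ∧ c i j ≤ H) ∧ ∃ n : ℕ, 1 ≤ n ∧ (n : ℝ) ≤ (H : ℝ) ^ A ∧
        Nat.Coprime (val (c 0) n) (val (c 1) n) ∧ ¬ TSmall η K (val (c 0) n) (val (c 1) n)}.ncard : ℝ) ≤
        (H : ℝ) ^ (2 * (d + 1) - κ : ℝ)) ∧
    (∀ (d : ℕ) (A η K : ℝ), 1 ≤ A → 0 ≤ η → η < 2 → A * (d * max 1 (F η) + 1) + max 1 (F η) < 2 * (d + 1) →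
      ∃ κ : ℝ, 0 < κ ∧ ∃ H₀ : ℕ, ∀ H : ℕ, H₀ ≤ H →
      ({c : Fin 2 → Fin (d + 1) → ℕ | (∀ i j, 1 ≤ c i j ∧ c i j ≤ H) ∧ ∃ n : ℕ, 1 ≤ n ∧ (n : ℝ) ≤ (H : ℝ) ^ A ∧
        ¬ PairGood η K (val (c 0) n) (val (c 1) n)}.ncard : ℝ) ≤ (H : ℝ) ^ (2 * (d + 1) - κ : ℝ)) ∧
    ∀ (d : ℕ) (A B η K : ℝ), 1 ≤ A → 1 ≤ B → 0 ≤ η → η < 7 / 9 → A * (d * (B * f η) + 1) + B * f η < d + 1 →
      ∃ κ : ℝ, 0 < κ ∧ ∃ H₀ : ℕ, ∀ H : ℕ, H₀ ≤ H →
      ({c : Fin (d + 1) → ℕ | (∀ j, 1 ≤ c j ∧ c j ≤ H) ∧ ∃ n : ℕ, 1 ≤ n ∧ (n : ℝ) ≤ (H : ℝ) ^ A ∧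
        ¬ Good B η K (val c n)}.ncard : ℝ) ≤ (H : ℝ) ^ (d + 1 - κ : ℝ) := by
  classical
  refine ⟨fun d A η K hA h0 h2 h => ?_, fun d A η K hA h0 h2 h => ?_, fun d A B η K hA hB h0 h1 h => ?_⟩
  · have hF : 0 < F η := by rw [← F_eq η h0]; exact Fx_pos _ (by linarith)
    obtain ⟨ε, hε, h3⟩ := room A d (F η) (2 * (d + 1)) hA (by positivity) h
    obtain ⟨C, hC⟩ := pairs_count η K ε h0 hε
    obtain ⟨κ, hκ, H₀, hH⟩ := engine 2 d (BadPairs η K) C (F η + ε) A (by linarith) hA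
      (fun X hX => by convert hC X hX) (by push_cast; linarith)
    refine ⟨κ, hκ, H₀, fun H hHH => ?_⟩
    have h4 := hH H hHH
    have e : (((d : ℝ) + 1) * ((2 : ℕ) : ℝ) - κ) = 2 * (d + 1) - κ := by push_cast; ring
    rw [e] at h4
    refine le_trans (le_of_eq ?_) h4
    congr 2
    ext c
    constructor
    · rintro ⟨a1, n, a2, a3, a4, a5⟩
      exact ⟨a1, n, a2, a3, Pool.Agent.D0H71.TPY.val_pos _ n fun j => (a1 0 j).1,
        Pool.Agent.D0H71.TPY.val_pos _ n fun j => (a1 1 j).1, a4, a5⟩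
    · rintro ⟨a1, n, a2, a3, -, -, a4, a5⟩
      exact ⟨a1, n, a2, a3, a4, a5⟩
  · have hs : 1 ≤ max 1 (F η) := le_max_left _ _
    obtain ⟨ε, hε, h3⟩ := room A d (max 1 (F η)) (2 * (d + 1)) hA (by positivity) h
    obtain ⟨C, hC⟩ := reduced_count η K ε h0 hε
    obtain ⟨κ, hκ, H₀, hH⟩ := engine 2 d {v : Fin 2 → ℕ | (∀ i, 1 ≤ v i) ∧ ¬ PairGood η K (v 0) (v 1)} C
      (max 1 (F η) + ε) A (by linarith) hA (fun X hX => by convert hC X hX) (by push_cast; linarith)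
    refine ⟨κ, hκ, H₀, fun H hHH => ?_⟩
    have h4 := hH H hHH
    have e : (((d : ℝ) + 1) * ((2 : ℕ) : ℝ) - κ) = 2 * (d + 1) - κ := by push_cast; ring
    rw [e] at h4
    refine le_trans (le_of_eq ?_) h4
    congr 2
    ext c
    constructor
    · rintro ⟨a1, n, a2, a3, a4⟩
      exact ⟨a1, n, a2, a3, fun i => Pool.Agent.D0H71.TPY.val_pos _ n fun j => (a1 i j).1, a4⟩
    · rintro ⟨a1, n, a2, a3, -, a4⟩
      exact ⟨a1, n, a2, a3, a4⟩
  · have hf := f_nonneg η h0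
    have hBf : 0 ≤ B * f η := mul_nonneg (by linarith) hf
    obtain ⟨ε, hε, h3⟩ := room A d (B * f η) (d + 1) hA (by positivity) h
    obtain ⟨C, hC⟩ := good_count B η K ε hB h0 h1 hε
    obtain ⟨κ, hκ, H₀, hH⟩ := engine 1 d {v : Fin 1 → ℕ | 0 < v 0 ∧ ¬ Good B η K (v 0)} C (B * f η + ε) A
      (by linarith) hA (fun X hX => by convert hC X hX) (by push_cast; linarith)
    refine ⟨κ, hκ, H₀, fun H hHH => ?_⟩
    have h4 := hH H hHH
    have e : (((d : ℝ) + 1) * ((1 : ℕ) : ℝ) - κ) = d + 1 - κ := by push_cast; ring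
    rw [e] at h4
    refine le_trans ?_ h4
    have hfin : {c : Fin 1 → Fin (d + 1) → ℕ | (∀ i j, 1 ≤ c i j ∧ c i j ≤ H) ∧ ∃ n : ℕ, 1 ≤ n ∧
        (n : ℝ) ≤ (H : ℝ) ^ A ∧ (fun i => val (c i) n) ∈ {v : Fin 1 → ℕ | 0 < v 0 ∧ ¬ Good B η K (v 0)}}.Finite := by
      refine (Finset.finite_toSet (Pool.Agent.D0H71.TPY.Boxes 1 d H)).subset ?_
      rintro c ⟨a1, -⟩
      exact Finset.mem_coe.2 (Pool.Agent.D0H71.TPY.mem_boxes.2 a1)
    have hn := Set.ncard_le_ncard_of_injOn (s := {c : Fin (d + 1) → ℕ | (∀ j, 1 ≤ c j ∧ c j ≤ H) ∧ ∃ n : ℕ, 1 ≤ n ∧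
        (n : ℝ) ≤ (H : ℝ) ^ A ∧ ¬ Good B η K (val c n)}) (fun c => fun _ : Fin 1 => c) (by
      rintro c ⟨a1, n, a2, a3, a4⟩
      exact ⟨fun _ => a1, n, a2, a3, Pool.Agent.D0H71.TPY.val_pos _ n fun j => (a1 j).1, a4⟩) (by
      intro c _ c' _ hcc
      exact congrFun hcc 0) hfin
    exact_mod_cast hn

end Pool.Agent.Results.MP_4ab349_nt.TypicalPolynomials
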